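import Mathlib

set_option autoImplicit false
set_option linter.unusedSectionVars false

open Finset

namespace Pool.Agent.P.MP_a05398_ag

/-- A facet: its vertices and the coordinates with respect to them. -/
structure Fac (N ι : Type) [AddCommGroup N] where
  v : ι → N
  c : N →+ (ι → ℤ)

variable {N ι : Type} [AddCommGroup N] [Fintype ι] [DecidableEq ι]

/-- The level of a point with respect to a facet. -/
def Fac.lev (f : Fac N ι) (x : N) : ℤ := ∑ j, f.c x j

/-- `f'` is obtained from `f` by exchanging the vertex in slot `i`. -/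
structure IsFlip (f f' : Fac N ι) (i : ι) : Prop where
  v_ne : ∀ j, j ≠ i → f'.v j = f.v j
  neg : f.c (f'.v i) i = -1
  c_self : ∀ x, f'.c x i = -f.c x i
  c_ne : ∀ x j, j ≠ i → f'.c x j = f.c x j + f.c x i * f.c (f'.v i) j

/-- The abstract facet system of a smooth Fano polytope. -/
structure Cfg (N ι : Type) [AddCommGroup N] [Fintype ι] [DecidableEq ι] where
  V : Finset N
  good : Fac N ι → Prop
  mem : ∀ f, good f → ∀ i, f.v i ∈ V
  cv : ∀ f, good f → ∀ i, f.c (f.v i) = Pi.single i 1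
  lev_le : ∀ f, good f → ∀ x ∈ V, (∀ i, x ≠ f.v i) → f.lev x ≤ 0
  flip : ∀ f, good f → ∀ i, ∃ f', good f' ∧ IsFlip f f' i
  ker : ∀ f f', good f → good f' → ∀ x, f.c x = 0 → f'.c x = 0
  nz : ∀ f, good f → ∀ x ∈ V, f.c x ≠ 0

theorem Fac.lev_add (f : Fac N ι) (x y : N) : f.lev (x + y) = f.lev x + f.lev y := by
  simp [Fac.lev, Finset.sum_add_distrib]

theorem IsFlip.lev_eq {f f' : Fac N ι} {i : ι} (h : IsFlip f f' i) (x : N) :
    f'.lev x = f.lev x + f.c x i * (f.lev (f'.v i) - 1) := by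
  unfold Fac.lev
  rw [← Finset.add_sum_erase _ _ (Finset.mem_univ i),
    ← Finset.add_sum_erase _ (fun j => f.c x j) (Finset.mem_univ i),
    ← Finset.add_sum_erase _ (fun j => f.c (f'.v i) j) (Finset.mem_univ i), h.c_self, h.neg]
  rw [Finset.sum_congr rfl (fun j hj => h.c_ne x j (Finset.ne_of_mem_erase hj)),
    Finset.sum_add_distrib, ← Finset.mul_sum]
  ring

namespace Cfg
variable (C : Cfg N ι)

theorem cv_apply {f : Fac N ι} (hf : C.good f) (i j : ι) :
    f.c (f.v i) j = if j = i then 1 else 0 := by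
  rw [C.cv f hf, Pi.single_apply]

theorem lev_v {f : Fac N ι} (hf : C.good f) (i : ι) : f.lev (f.v i) = 1 := by
  simp [Fac.lev, C.cv_apply hf]

theorem ne_v_of_neg {f : Fac N ι} (hf : C.good f) {x : N} {i : ι} (hx : f.c x i < 0) (j : ι) :
    x ≠ f.v j := by
  rintro rfl
  rw [C.cv_apply hf] at hx
  split_ifs at hx <;> omega

theorem lev_le_one {f : Fac N ι} (hf : C.good f) {x : N} (hx : x ∈ C.V) : f.lev x ≤ 1 := by
  by_cases h : ∃ i, x = f.v i
  · obtain ⟨i, rfl⟩ := h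
    rw [C.lev_v hf]
  · push Not at h
    have := C.lev_le f hf x hx h
    omega

theorem eq_v_of_lev {f : Fac N ι} (hf : C.good f) {x : N} (hx : x ∈ C.V) (h : 1 ≤ f.lev x) :
    ∃ i, x = f.v i := by
  by_contra hc
  push Not at hc
  have := C.lev_le f hf x hx hc
  omega

theorem lev_le_of_neg {f : Fac N ι} (hf : C.good f) {x : N} (hx : x ∈ C.V) {i : ι}
    (h : f.c x i < 0) : f.lev x ≤ 0 :=
  C.lev_le f hf x hx (C.ne_v_of_neg hf h)

theorem flip_lev_le {f f' : Fac N ι} (hf : C.good f) (hf' : C.good f') {i : ι}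
    (h : IsFlip f f' i) : f.lev (f'.v i) ≤ 0 :=
  C.lev_le_of_neg hf (C.mem f' hf' i) (i := i) (by rw [h.neg]; omega)

theorem not_mem_flip {f f' : Fac N ι} (hf : C.good f) {i : ι} (h : IsFlip f f' i) {x : N}
    {l : ι} (hx : f.c x l < 0) (hne : x ≠ f'.v i) (j : ι) : x ≠ f'.v j := by
  by_cases hj : j = i
  · rw [hj]; exact hne
  · rw [h.v_ne j hj]; exact C.ne_v_of_neg hf hx j

/-- the basic inequality of a flip -/
theorem flip_ineq {f f' : Fac N ι} (hf : C.good f) (hf' : C.good f') {i : ι}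
    (h : IsFlip f f' i) {x : N} (hx : x ∈ C.V) (hneg : f.c x i < 0) (hne : x ≠ f'.v i) :
    f.lev x + f.c x i * (f.lev (f'.v i) - 1) ≤ 0 := by
  rw [← h.lev_eq]
  exact C.lev_le f' hf' x hx (C.not_mem_flip hf h hneg hne)

/-- a vertex of level zero with a negative coordinate is the opposite vertex -/
theorem eq_flip_of_lev_zero {f f' : Fac N ι} (hf : C.good f) (hf' : C.good f') {i : ι}
    (h : IsFlip f f' i) {x : N} (hx : x ∈ C.V) (hneg : f.c x i < 0) (h0 : f.lev x = 0) :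
    x = f'.v i := by
  by_contra hne
  have h1 := C.flip_ineq hf hf' h hx hneg hne
  have h2 := C.flip_lev_le hf hf' h
  nlinarith

theorem coord_eq_neg_one {f : Fac N ι} (hf : C.good f) {i : ι} {x : N} (hx : x ∈ C.V)
    (hneg : f.c x i < 0) (h0 : f.lev x = 0) : f.c x i = -1 := by
  obtain ⟨f', hf', h⟩ := C.flip f hf i
  rw [C.eq_flip_of_lev_zero hf hf' h hx hneg h0, h.neg]

theorem lev_zero_unique {f : Fac N ι} (hf : C.good f) {i : ι} {x y : N} (hx : x ∈ C.V)
    (hy : y ∈ C.V) (hxn : f.c x i < 0) (hyn : f.c y i < 0) (hx0 : f.lev x = 0)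
    (hy0 : f.lev y = 0) : x = y := by
  obtain ⟨f', hf', h⟩ := C.flip f hf i
  rw [C.eq_flip_of_lev_zero hf hf' h hx hxn hx0, C.eq_flip_of_lev_zero hf hf' h hy hyn hy0]

/-- every point of bounded level lies in the cone over some facet -/
theorem cone {f : Fac N ι} (hf : C.good f) (x : N) (B : ℤ)
    (hB : ∀ g, C.good g → g.lev x ≤ B) : ∃ g, C.good g ∧ ∀ i, 0 ≤ g.c x i := by
  obtain ⟨m, ⟨g, hg, rfl⟩, hm⟩ := Int.exists_greatest_of_bdd
    (P := fun z => ∃ g, C.good g ∧ g.lev x = z)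
    ⟨B, by rintro z ⟨g, hg, rfl⟩; exact hB g hg⟩ ⟨_, f, hf, rfl⟩
  refine ⟨g, hg, fun i => ?_⟩
  by_contra hneg
  push Not at hneg
  obtain ⟨g', hg', h⟩ := C.flip g hg i
  have h1 := hm _ ⟨g', hg', rfl⟩
  rw [h.lev_eq] at h1
  have h2 := C.flip_lev_le hg hg' h
  nlinarith

theorem c_eq_of_c_eq {f g : Fac N ι} (hf : C.good f) (hg : C.good g) {x y : N}
    (h : f.c x = f.c y) : g.c x = g.c y := by
  have := C.ker f g hf hg (x - y) (by rw [map_sub, h, sub_self])
  rwa [map_sub, sub_eq_zero] at this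

theorem lev_pos_of_nonneg {g : Fac N ι} {x : N} (h0 : ∀ i, 0 ≤ g.c x i) (hne : g.c x ≠ 0) :
    1 ≤ g.lev x := by
  obtain ⟨i, hi⟩ : ∃ i, g.c x i ≠ 0 := by
    by_contra hc
    push Not at hc
    exact hne (funext hc)
  have h1 : g.c x i ≤ g.lev x :=
    Finset.single_le_sum (f := fun j => g.c x j) (fun j _ => h0 j) (Finset.mem_univ i)
  have := h0 i
  omega

theorem v_inj {f : Fac N ι} (hf : C.good f) {i j : ι} (h : f.c (f.v i) = f.c (f.v j)) : i = j := by
  have := congrFun h i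
  rw [C.cv_apply hf, C.cv_apply hf] at this
  by_contra hne
  simp [hne] at this

theorem inj {f : Fac N ι} (hf : C.good f) {x y : N} (hx : x ∈ C.V) (hy : y ∈ C.V)
    (h : f.c x = f.c y) : x = y := by
  obtain ⟨g, hg, h0⟩ := C.cone hf x 1 (fun g hg => C.lev_le_one hg hx)
  have e := C.c_eq_of_c_eq hf hg h
  have h1 := lev_pos_of_nonneg h0 (C.nz g hg x hx)
  have h2 : 1 ≤ g.lev y := by unfold Fac.lev at *; rwa [← e]
  obtain ⟨i, rfl⟩ := C.eq_v_of_lev hg hx h1
  obtain ⟨j, rfl⟩ := C.eq_v_of_lev hg hy h2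
  rw [C.v_inj hg e]

theorem single_of_lev_one {g : Fac N ι} {x : N} (h0 : ∀ i, 0 ≤ g.c x i) (h1 : g.lev x = 1) :
    ∃ j, g.c x = Pi.single j 1 := by
  obtain ⟨j, hj⟩ : ∃ j, g.c x j ≠ 0 := by
    by_contra hc
    push Not at hc
    simp [Fac.lev, hc] at h1
  refine ⟨j, funext fun l => ?_⟩
  unfold Fac.lev at h1
  rw [← Finset.add_sum_erase _ _ (Finset.mem_univ j)] at h1
  have h2 : 0 ≤ ∑ x_1 ∈ univ.erase j, g.c x x_1 := Finset.sum_nonneg fun l _ => h0 l
  have h3 := h0 j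
  by_cases hl : l = j
  · subst hl
    rw [Pi.single_eq_same]; omega
  · rw [Pi.single_eq_of_ne hl]
    have h4 : ∑ x_1 ∈ univ.erase j, g.c x x_1 = 0 := by omega
    exact (Finset.sum_eq_zero_iff_of_nonneg fun l _ => h0 l).1 h4 l (by simp [hl])

/-- the square lemma -/
theorem square {f : Fac N ι} (hf : C.good f) {a b c d : N} (ha : a ∈ C.V) (hb : b ∈ C.V)
    (hc : c ∈ C.V) (hd : d ∈ C.V) (h : f.c a + f.c b = f.c c + f.c d) (hac : a ≠ c)
    (had : a ≠ d) : f.c a + f.c b = 0 ∨ ∃ z ∈ C.V, f.c z = f.c a + f.c b := by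
  obtain ⟨g, hg, h0⟩ := C.cone hf (a + b) 2 (fun g hg => by
    have := C.lev_le_one hg ha
    have := C.lev_le_one hg hb
    rw [Fac.lev_add]; omega)
  by_cases hz : g.c (a + b) = 0
  · left
    rw [← map_add]
    exact C.ker g f hg hf _ hz
  have h1 := lev_pos_of_nonneg h0 hz
  by_cases h2 : g.lev (a + b) = 1
  · right
    obtain ⟨j, hj⟩ := single_of_lev_one h0 h2
    refine ⟨g.v j, C.mem g hg j, ?_⟩
    rw [← map_add]
    exact C.c_eq_of_c_eq hg hf (by rw [hj, C.cv g hg])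
  · exfalso
    have e : g.c (a + b) = g.c (c + d) := C.c_eq_of_c_eq hf hg (by rw [map_add, map_add, h])
    have e2 : g.lev (a + b) = g.lev (c + d) := by unfold Fac.lev; rw [e]
    rw [Fac.lev_add] at h1 h2
    rw [Fac.lev_add, Fac.lev_add] at e2
    have la := C.lev_le_one hg ha
    have lb := C.lev_le_one hg hb
    have lc := C.lev_le_one hg hc
    have ld := C.lev_le_one hg hd
    obtain ⟨i, rfl⟩ := C.eq_v_of_lev hg ha (by omega)
    obtain ⟨j, rfl⟩ := C.eq_v_of_lev hg hb (by omega)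
    obtain ⟨k, rfl⟩ := C.eq_v_of_lev hg hc (by omega)
    obtain ⟨l, rfl⟩ := C.eq_v_of_lev hg hd (by omega)
    have e3 := congrFun e i
    simp only [map_add, Pi.add_apply, C.cv_apply hg] at e3
    have hk : i ≠ k := fun h => hac (by rw [h])
    have hl : i ≠ l := fun h => had (by rw [h])
    simp only [hk, hl, if_true, if_false] at e3
    split_ifs at e3 <;> omega

end Cfg

end Pool.Agent.P.MP_a05398_ag
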