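import Pool.Agent.P.MP_a05398_ag.Core3

set_option autoImplicit false
set_option linter.unusedSectionVars false
set_option linter.unusedSimpArgs false

open Finset

namespace Pool.Agent.P.MP_a05398_ag

variable {N ι : Type} [AddCommGroup N] [Fintype ι] [DecidableEq ι]

/-- the coordinates other than `i` and `p` -/
abbrev Rest (i p : ι) : Type := {l : ι // l ≠ i ∧ l ≠ p}

def resHom (i p : ι) : (ι → ℤ) →+ (Rest i p → ℤ) where
  toFun g := fun l => g l.1
  map_zero' := rfl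
  map_add' _ _ := rfl

def Fac.res (f : Fac N ι) (i p : ι) : Fac N (Rest i p) where
  v := fun l => f.v l.1
  c := (resHom i p).comp f.c

theorem Fac.res_c (f : Fac N ι) (i p : ι) (x : N) (l : Rest i p) :
    (f.res i p).c x l = f.c x l.1 := rfl

theorem Fac.res_v (f : Fac N ι) (i p : ι) (l : Rest i p) : (f.res i p).v l = f.v l.1 := rfl

theorem sum_rest {i p : ι} (h : p ≠ i) (g : ι → ℤ) :
    ∑ l, g l = g i + g p + ∑ l : Rest i p, g l.1 := by
  rw [← Finset.add_sum_erase _ _ (Finset.mem_univ i),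
    ← Finset.add_sum_erase _ _ (show p ∈ univ.erase i by simp [h]), add_assoc]
  congr 2
  exact Finset.sum_subtype _ (fun x => by simp [and_comm]) g

theorem card_rest {i p : ι} (h : p ≠ i) : Fintype.card (Rest i p) + 2 = Fintype.card ι := by
  have := sum_rest h (fun _ => (1 : ℤ))
  simp only [sum_const, card_univ, nsmul_eq_mul, mul_one] at this
  omega

theorem Fac.lev_res (f : Fac N ι) {i p : ι} (h : p ≠ i) (x : N) :
    f.lev x = f.c x i + f.c x p + (f.res i p).lev x := sum_rest h _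

theorem Cfg.step (C : Cfg N ι) {g : Fac N ι} (hg : C.good g) {s t : ι} (hst : t ≠ s) {u : N}
    (hu : u ∈ C.V) (hc : g.c u = Pi.single t 1 - Pi.single s 1) :
    ∃ g', C.good g' ∧ g'.v s = u ∧ (∀ l, l ≠ s → g'.v l = g.v l) ∧
      (∀ x, g'.c x s = -g.c x s) ∧ (∀ x, g'.c x t = g.c x t + g.c x s) ∧
      ∀ x l, l ≠ s → l ≠ t → g'.c x l = g.c x l := by
  obtain ⟨g', hg', h⟩ := C.flip g hg s
  have e : u = g'.v s := C.eq_flip_of_lev_zero hg hg' h hu (by rw [hc]; simp [hst.symm])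
    (by simp [Fac.lev, hc, Finset.sum_sub_distrib])
  refine ⟨g', hg', e.symm, h.v_ne, h.c_self, fun x => ?_, fun x l h1 h2 => ?_⟩
  · rw [h.c_ne x t hst, ← e, hc]; simp [hst]
  · rw [h.c_ne x l h1, ← e, hc]; simp [h1, h2]

/-- all coordinates other than `i`, `p` vanish -/
def Pl (F : Fac N ι) (i p : ι) (x : N) : Prop := ∀ l, l ≠ i → l ≠ p → F.c x l = 0

structure Over (C : Cfg N ι) (F : Fac N ι) (i p : ι) (f : Fac N ι) : Prop where
  good : C.good f
  vi : f.v i = F.v i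
  vp : f.v p = F.v p

structure Frame (C : Cfg N ι) (i p : ι) (f g : Fac N ι) (u u' : N) (A B A' B' : ℤ) : Prop where
  good : C.good g
  vi : g.v i = u
  vp : g.v p = u'
  vl : ∀ l, l ≠ i → l ≠ p → g.v l = f.v l
  cl : ∀ x l, l ≠ i → l ≠ p → g.c x l = f.c x l
  ci : ∀ x, g.c x i = A * f.c x i + B * f.c x p
  cp : ∀ x, g.c x p = A' * f.c x i + B' * f.c x p

theorem Frame.lev {C : Cfg N ι} {i p : ι} (h : p ≠ i) {f g : Fac N ι} {u u' : N} {A B A' B' : ℤ}
    (H : Frame C i p f g u u' A B A' B') (x : N) :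
    g.lev x = (f.res i p).lev x + (A + A') * f.c x i + (B + B') * f.c x p := by
  rw [g.lev_res h, H.ci, H.cp]
  have : (g.res i p).lev x = (f.res i p).lev x :=
    Finset.sum_congr rfl fun l _ => H.cl x l.1 l.2.1 l.2.2
  rw [this]; ring

theorem Frame.not_mem {C : Cfg N ι} {i p : ι} {f g : Fac N ι} {u u' : N} {A B A' B' : ℤ}
    (H : Frame C i p f g u u' A B A' B') {x : N} (h1 : x ≠ u) (h2 : x ≠ u')
    (h3 : ∀ l, l ≠ i → l ≠ p → x ≠ f.v l) (j : ι) : x ≠ g.v j := by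
  by_cases hi : j = i
  · rw [hi, H.vi]; exact h1
  · by_cases hp : j = p
    · rw [hp, H.vp]; exact h2
    · rw [H.vl j hi hp]; exact h3 j hi hp

theorem Over.c_eq {C : Cfg N ι} {F : Fac N ι} {i p : ι} (h : p ≠ i) {f f' : Fac N ι}
    (H : Over C F i p f) (H' : Over C F i p f') {x : N} (hx : Pl f i p x) : f'.c x = f.c x := by
  have key : ∀ g, Over C F i p g → g.c (f.c x i • F.v i + f.c x p • F.v p) = f.c x := by
    intro g Hg
    rw [← Hg.vi, ← Hg.vp, map_add, map_zsmul, map_zsmul, C.cv g Hg.good, C.cv g Hg.good]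
    funext l
    by_cases h1 : l = i
    · subst h1; simp [h.symm]
    · by_cases h2 : l = p
      · subst h2; simp [h]
      · simp [h1, h2, hx l h1 h2]
  rw [← key f' H']
  exact C.c_eq_of_c_eq H.good H'.good (key f H).symm

theorem Over.pl {C : Cfg N ι} {F : Fac N ι} {i p : ι} (h : p ≠ i) {f f' : Fac N ι}
    (H : Over C F i p f) (H' : Over C F i p f') {x : N} (hx : Pl f i p x) : Pl f' i p x := by
  intro l h1 h2
  rw [H.c_eq h H' hx]; exact hx l h1 h2

theorem Over.refl {C : Cfg N ι} {F : Fac N ι} (hF : C.good F) (i p : ι) : Over C F i p F :=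
  ⟨hF, rfl, rfl⟩

/-- the data of a pentagon -/
structure PD (C : Cfg N ι) (F : Fac N ι) (i p : ι) where
  hF : C.good F
  ne : p ≠ i
  a : N
  b : N
  n : N
  ha : a ∈ C.V
  hb : b ∈ C.V
  hn : n ∈ C.V
  ca : F.c a = Pi.single p 1 - Pi.single i 1
  cb : F.c b = Pi.single i 1 - Pi.single p 1
  cn : F.c n = -Pi.single i 1

theorem Pent.nonempty {C : Cfg N ι} {F : Fac N ι} {i p : ι} (hF : C.good F) (h : Pent C F i p) :
    Nonempty (PD C F i p) := by
  obtain ⟨h, a, ha, b, hb, n, hn, ca, cb, cn⟩ := h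
  exact ⟨⟨hF, h, a, b, n, ha, hb, hn, ca, cb, cn⟩⟩

namespace PD
variable {C : Cfg N ι} {F : Fac N ι} {i p : ι} (P : PD C F i p)

theorem pl_a : Pl F i p P.a := fun l h1 h2 => by simp [P.ca, h1, h2]
theorem pl_b : Pl F i p P.b := fun l h1 h2 => by simp [P.cb, h1, h2]
theorem pl_n : Pl F i p P.n := fun l h1 h2 => by simp [P.cn, h1, h2]
include P in
theorem pl_vi : Pl F i p (F.v i) := fun l h1 h2 => by simp [C.cv F P.hF, h1, h2]
include P in
theorem pl_vp : Pl F i p (F.v p) := fun l h1 h2 => by simp [C.cv F P.hF, h1, h2]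

include P in
theorem oc {f : Fac N ι} (H : Over C F i p f) {x : N} (hx : Pl F i p x) : f.c x = F.c x :=
  (Over.refl P.hF i p).c_eq P.ne H hx

theorem frame0 {f : Fac N ι} (H : Over C F i p f) :
    Frame C i p f f (F.v i) (F.v p) 1 0 0 1 :=
  ⟨H.good, H.vi, H.vp, fun _ _ _ => rfl, fun _ _ _ _ => rfl, fun x => by ring, fun x => by ring⟩

theorem frame1 {f : Fac N ι} (H : Over C F i p f) :
    ∃ g, Frame C i p f g P.a (F.v p) (-1) 0 1 1 := by
  obtain ⟨g, hg, h1, h2, h3, h4, h5⟩ := C.step H.good P.ne P.ha (by rw [P.oc H P.pl_a, P.ca])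
  exact ⟨g, hg, h1, by rw [h2 p P.ne, H.vp], fun l a _ => h2 l a, h5,
    fun x => by rw [h3]; ring, fun x => by rw [h4]; ring⟩

theorem frame5 {f : Fac N ι} (H : Over C F i p f) :
    ∃ g, Frame C i p f g (F.v i) P.b 1 1 0 (-1) := by
  obtain ⟨g, hg, h1, h2, h3, h4, h5⟩ := C.step H.good P.ne.symm P.hb
    (by rw [P.oc H P.pl_b, P.cb])
  exact ⟨g, hg, by rw [h2 i P.ne.symm, H.vi], h1, fun l _ a => h2 l a, fun x l a b => h5 x l b a,
    fun x => by rw [h4]; ring, fun x => by rw [h3]; ring⟩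

theorem frame2 {f : Fac N ι} (H : Over C F i p f) :
    ∃ g, Frame C i p f g P.a P.n 0 1 (-1) (-1) := by
  obtain ⟨g1, H1⟩ := P.frame1 H
  have hne := P.ne
  obtain ⟨g, hg, h1, h2, h3, h4, h5⟩ := C.step H1.good P.ne.symm P.hn (by
    funext l
    by_cases a1 : l = i
    · subst a1; rw [H1.ci, P.oc H P.pl_n, P.cn]; simp [hne, hne.symm]
    · by_cases a2 : l = p
      · subst a2; rw [H1.cp, P.oc H P.pl_n, P.cn]; simp [hne, hne.symm]
      · rw [H1.cl _ l a1 a2, P.oc H P.pl_n, P.cn]; simp [a1, a2])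
  exact ⟨g, hg, by rw [h2 i P.ne.symm, H1.vi], h1, fun l a b => by rw [h2 l b, H1.vl l a b],
    fun x l a b => by rw [h5 x l b a, H1.cl x l a b],
    fun x => by rw [h4, H1.ci, H1.cp]; ring, fun x => by rw [h3, H1.cp]; ring⟩

theorem frame3 {f : Fac N ι} (H : Over C F i p f) {m : N} (hm : m ∈ C.V)
    (cm : F.c m = -Pi.single p 1) : ∃ g, Frame C i p f g m P.n 0 (-1) (-1) 0 := by
  obtain ⟨g1, H1⟩ := P.frame2 H
  have hne := P.ne
  have pl_m : Pl F i p m := fun l h1 h2 => by simp [cm, h2]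
  obtain ⟨g, hg, h1, h2, h3, h4, h5⟩ := C.step H1.good P.ne hm (by
    funext l
    by_cases a1 : l = i
    · subst a1; rw [H1.ci, P.oc H pl_m, cm]; simp [hne, hne.symm]
    · by_cases a2 : l = p
      · subst a2; rw [H1.cp, P.oc H pl_m, cm]; simp [hne, hne.symm]
      · rw [H1.cl _ l a1 a2, P.oc H pl_m, cm]; simp [a1, a2])
  exact ⟨g, hg, h1, by rw [h2 p P.ne, H1.vp], fun l a b => by rw [h2 l a, H1.vl l a b],
    fun x l a b => by rw [h5 x l a b, H1.cl x l a b],
    fun x => by rw [h3, H1.ci]; ring, fun x => by rw [h4, H1.ci, H1.cp]; ring⟩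

include P in
theorem not_pl_v {f : Fac N ι} (H : Over C F i p f) {l : ι} (h1 : l ≠ i) (h2 : l ≠ p) :
    ¬ Pl F i p (f.v l) := by
  intro h
  have := (Over.refl P.hF i p).pl P.ne H h l h1 h2
  rw [C.cv f H.good] at this
  simp at this

/-- the vertices in the plane of the pentagon -/
theorem planar {x : N} (hx : x ∈ C.V) (hp : Pl F i p x) :
    x = F.v i ∨ x = F.v p ∨ x = P.a ∨ x = P.b ∨ x = P.n ∨ F.c x = -Pi.single p 1 := by
  by_contra hc
  push Not at hc
  obtain ⟨c1, c2, c3, c4, c5, c6⟩ := hc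
  have H := Over.refl P.hF i p
  have hl : ∀ l, l ≠ i → l ≠ p → x ≠ F.v l := fun l h1 h2 e => P.not_pl_v H h1 h2 (e ▸ hp)
  have h0 : (F.res i p).lev x = 0 := Finset.sum_eq_zero fun l _ => hp l.1 l.2.1 l.2.2
  obtain ⟨g1, H1⟩ := P.frame1 H
  obtain ⟨g2, H2⟩ := P.frame2 H
  obtain ⟨g5, H5⟩ := P.frame5 H
  have l1 := C.lev_le _ H1.good x hx (H1.not_mem c3 c2 hl)
  have l2 := C.lev_le _ H2.good x hx (H2.not_mem c3 c5 hl)
  have l5 := C.lev_le _ H5.good x hx (H5.not_mem c1 c4 hl)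
  rw [H1.lev P.ne, h0] at l1
  rw [H2.lev P.ne, h0] at l2
  rw [H5.lev P.ne, h0] at l5
  have xi : F.c x i = 0 := by omega
  have xp : F.c x p ≠ 0 := by
    intro h
    apply C.nz F P.hF x hx
    funext l
    by_cases a1 : l = i
    · rw [a1, xi]; rfl
    · by_cases a2 : l = p
      · rw [a2, h]; rfl
      · exact hp l a1 a2
  have := C.coord_eq_neg_one H5.good (i := i) hx (by rw [H5.ci]; omega)
    (by rw [H5.lev P.ne, h0]; omega)
  rw [H5.ci] at this
  apply c6
  funext l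
  by_cases a1 : l = i
  · rw [a1, xi]; simp [P.ne.symm]
  · by_cases a2 : l = p
    · rw [a2]; simp; omega
    · rw [hp l a1 a2]; simp [a2]

theorem frame_not_mem {f g : Fac N ι} {u u' : N} {A B A' B' : ℤ}
    (Hg : Frame C i p f g u u' A B A' B') (hu : Pl F i p u) (hu' : Pl F i p u') {x : N}
    (hx : ¬ Pl F i p x) (hl : ∀ l : Rest i p, x ≠ (f.res i p).v l) (j : ι) : x ≠ g.v j :=
  Hg.not_mem (fun e => hx (by rw [e]; exact hu)) (fun e => hx (by rw [e]; exact hu'))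
    (fun l h1 h2 => hl ⟨l, h1, h2⟩) j

include P in
theorem res_lev_v {f : Fac N ι} (H : Over C F i p f) (l : Rest i p) :
    (f.res i p).lev (f.v l.1) = 1 := by
  have := f.lev_res P.ne (f.v l.1)
  rw [C.lev_v H.good, C.cv_apply H.good, C.cv_apply H.good, if_neg l.2.1.symm,
    if_neg l.2.2.symm] at this
  omega

open Classical in
/-- the facet system obtained by forgetting the plane of the pentagon -/
noncomputable def contract : Cfg N (Rest i p) where
  V := C.V.filter fun x => ¬ Pl F i p x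
  good g := ∃ f, Over C F i p f ∧ g = f.res i p
  mem := by
    rintro _ ⟨f, H, rfl⟩ l
    exact Finset.mem_filter.2 ⟨C.mem f H.good _, P.not_pl_v H l.2.1 l.2.2⟩
  cv := by
    rintro _ ⟨f, H, rfl⟩ l
    funext k
    rw [Fac.res_c, Fac.res_v, C.cv_apply H.good, Pi.single_apply]
    simp [Subtype.ext_iff]
  lev_le := by
    rintro _ ⟨f, H, rfl⟩ x hx hl
    rw [Finset.mem_filter] at hx
    obtain ⟨g2, H2⟩ := P.frame2 H
    obtain ⟨g5, H5⟩ := P.frame5 H
    have l2 := C.lev_le _ H2.good x hx.1 (frame_not_mem H2 P.pl_a P.pl_n hx.2 hl)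
    have l5 := C.lev_le _ H5.good x hx.1 (frame_not_mem H5 P.pl_vi P.pl_b hx.2 hl)
    rw [H2.lev P.ne] at l2
    rw [H5.lev P.ne] at l5
    omega
  flip := by
    rintro _ ⟨f, H, rfl⟩ l
    obtain ⟨f', hf', h⟩ := C.flip f H.good l.1
    refine ⟨f'.res i p, ⟨f', ⟨hf', ?_, ?_⟩, rfl⟩, ?_, h.neg, h.c_self, ?_⟩
    · rw [h.v_ne i l.2.1.symm, H.vi]
    · rw [h.v_ne p l.2.2.symm, H.vp]
    · intro j hj
      exact h.v_ne j.1 fun e => hj (Subtype.ext e)
    · intro x j hj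
      exact h.c_ne x j.1 fun e => hj (Subtype.ext e)
  ker := by
    rintro _ _ ⟨f, H, rfl⟩ ⟨f', H', rfl⟩ x hx
    have : Pl f i p x := fun l h1 h2 => congrFun hx ⟨l, h1, h2⟩
    funext l
    exact H.pl P.ne H' this l.1 l.2.1 l.2.2
  nz := by
    rintro _ ⟨f, H, rfl⟩ x hx h0
    rw [Finset.mem_filter] at hx
    exact hx.2 (H.pl P.ne (Over.refl P.hF i p) fun l h1 h2 => congrFun h0 ⟨l, h1, h2⟩)

theorem mem_contract {x : N} : x ∈ P.contract.V ↔ x ∈ C.V ∧ ¬ Pl F i p x := by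
  classical
  exact Finset.mem_filter

theorem good_contract {g : Fac N (Rest i p)} :
    P.contract.good g ↔ ∃ f, Over C F i p f ∧ g = f.res i p := Iff.rfl

theorem contract_good : P.contract.good (F.res i p) := ⟨F, Over.refl P.hF i p, rfl⟩

end PD

end Pool.Agent.P.MP_a05398_ag
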