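import Pool.Agent.P.MP_a05398_ag.Contract1

set_option autoImplicit false
set_option linter.unusedSectionVars false
set_option linter.unusedSimpArgs false

open Finset

namespace Pool.Agent.P.MP_a05398_ag

variable {N ι : Type} [AddCommGroup N] [Fintype ι] [DecidableEq ι]

/-- the coordinates `i`, `p` carry a hexagon which splits off -/
def Split (C : Cfg N ι) (F : Fac N ι) (i p : ι) : Prop :=
  Pent C F i p ∧ (∃ m ∈ C.V, F.c m = -Pi.single p 1) ∧
    ∀ x ∈ C.V, (F.c x i = 0 ∧ F.c x p = 0) ∨ Pl F i p x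

theorem Split.symm {C : Cfg N ι} {F : Fac N ι} {i p : ι} (h : Split C F i p) : Split C F p i := by
  obtain ⟨⟨h, a, ha, b, hb, n, hn, ca, cb, cn⟩, ⟨m, hm, cm⟩, hs⟩ := h
  refine ⟨⟨h.symm, b, hb, a, ha, m, hm, cb, ca, cm⟩, ⟨n, hn, cn⟩, fun x hx => ?_⟩
  rcases hs x hx with h1 | h1
  · exact Or.inl h1.symm
  · exact Or.inr fun l a b => h1 l b a

open Classical in
noncomputable def splitSet (C : Cfg N ι) (F : Fac N ι) : Finset ι :=
  univ.filter fun i => ∃ p, Split C F i p

theorem mem_splitSet {C : Cfg N ι} {F : Fac N ι} {i : ι} :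
    i ∈ splitSet C F ↔ ∃ p, Split C F i p := by simp [splitSet]

namespace PD
variable {C : Cfg N ι} {F : Fac N ι} {i p : ι} (P : PD C F i p)

include P in
theorem planar_Z {σ : Type} [Fintype σ] (D : Chg C F σ) {x : N} (hx : x ∈ C.V)
    (hp : Pl F i p x) (s : σ) : x ∈ D.Z s := by
  have H := Over.refl P.hF i p
  have hne := P.ne
  have Za : ∀ s, P.a ∈ D.Z s := D.Z_of_lev_zero P.hF D.ZF P.ha
    (by simp [Fac.lev, P.ca, Finset.sum_sub_distrib])
  have Zb : ∀ s, P.b ∈ D.Z s := D.Z_of_lev_zero P.hF D.ZF P.hb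
    (by simp [Fac.lev, P.cb, Finset.sum_sub_distrib])
  have h0 : (F.res i p).lev x = 0 := Finset.sum_eq_zero fun l _ => hp l.1 l.2.1 l.2.2
  have fr : ∀ {g : Fac N ι} {u u' : N} {A B A' B' : ℤ}, Frame C i p F g u u' A B A' B' →
      (∀ s, u ∈ D.Z s) → (∀ s, u' ∈ D.Z s) → ∀ s j, g.v j ∈ D.Z s := by
    intro g u u' A B A' B' Hg hu hu' s j
    by_cases a1 : j = i
    · rw [a1, Hg.vi]; exact hu s
    · by_cases a2 : j = p
      · rw [a2, Hg.vp]; exact hu' s
      · rw [Hg.vl j a1 a2]; exact D.ZF s j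
  rcases P.planar hx hp with h | h | h | h | h | h
  · rw [h]; exact D.ZF s i
  · rw [h]; exact D.ZF s p
  · rw [h]; exact Za s
  · rw [h]; exact Zb s
  · obtain ⟨g, Hg⟩ := P.frame1 H
    refine D.Z_of_lev_zero Hg.good (fr Hg Za fun s => D.ZF s p) hx ?_ s
    rw [Hg.lev hne, h0, h, P.cn]; simp [hne]
  · obtain ⟨g, Hg⟩ := P.frame5 H
    refine D.Z_of_lev_zero Hg.good (fr Hg (fun s => D.ZF s i) Zb) hx ?_ s
    rw [Hg.lev hne, h0, h]; simp [hne.symm]

open Classical in
include P in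
theorem star_frame {σ : Type} [Fintype σ] (D : Chg C F σ) {f g : Fac N ι}
    {u u' : N} {A B A' B' : ℤ} (Hg : Frame C i p f g u u' A B A' B') (hu : Pl F i p u)
    (hu' : Pl F i p u') {y : N} (hy : y ∈ C.V) (hy' : ¬ Pl F i p y)
    (hl : ∀ l : Rest i p, y ≠ (f.res i p).v l) :
    ((univ.filter fun s => (∀ l, (f.res i p).v l ∈ D.Z s) ∧ y ∉ D.Z s).card : ℤ)
      ≤ -2 * ((f.res i p).lev y + (A + A') * f.c y i + (B + B') * f.c y p) := by
  rw [← Hg.lev P.ne]
  refine le_trans ?_ (D.star g Hg.good y hy (frame_not_mem Hg hu hu' hy' hl))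
  refine Int.ofNat_le.2 (Finset.card_le_card fun s hs => ?_)
  simp only [mem_filter, mem_univ, true_and] at hs ⊢
  refine ⟨fun j => ?_, hs.2⟩
  by_cases a1 : j = i
  · rw [a1]; exact P.planar_Z D (C.mem g Hg.good i) (by rw [Hg.vi]; exact hu) s
  · by_cases a2 : j = p
    · rw [a2]; exact P.planar_Z D (C.mem g Hg.good p) (by rw [Hg.vp]; exact hu') s
    · rw [Hg.vl j a1 a2]; exact hs.1 ⟨j, a1, a2⟩

open Classical in
include P in
theorem star_zero {σ : Type} [Fintype σ] (D : Chg C F σ) {f : Fac N ι} (H : Over C F i p f)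
    {y : N} (hy : y ∈ C.V) (hy' : ¬ Pl F i p y) (hl : ∀ l : Rest i p, y ≠ (f.res i p).v l) :
    ((univ.filter fun s => (∀ l, (f.res i p).v l ∈ D.Z s) ∧ y ∉ D.Z s).card : ℤ)
      ≤ -2 * (f.res i p).lev y := by
  obtain ⟨g2, H2⟩ := P.frame2 H
  obtain ⟨g5, H5⟩ := P.frame5 H
  have l2 := P.star_frame D H2 P.pl_a P.pl_n hy hy' hl
  have l5 := P.star_frame D H5 P.pl_vi P.pl_b hy hy' hl
  omega

open Classical in
include P in
theorem star_one {σ : Type} [Fintype σ] (D : Chg C F σ) {f : Fac N ι} (H : Over C F i p f)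
    {m : N} (hm : m ∈ C.V) (cm : F.c m = -Pi.single p 1)
    {y : N} (hy : y ∈ C.V) (hy' : ¬ Pl F i p y) (hl : ∀ l : Rest i p, y ≠ (f.res i p).v l)
    (hnz : ¬ (f.c y i = 0 ∧ f.c y p = 0)) :
    ((univ.filter fun s => (∀ l, (f.res i p).v l ∈ D.Z s) ∧ y ∉ D.Z s).card : ℤ) + 2
      ≤ -2 * (f.res i p).lev y := by
  obtain ⟨g1, H1⟩ := P.frame1 H
  obtain ⟨g2, H2⟩ := P.frame2 H
  obtain ⟨g3, H3⟩ := P.frame3 H hm cm
  obtain ⟨g5, H5⟩ := P.frame5 H
  have pl_m : Pl F i p m := fun l h1 h2 => by simp [cm, h2]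
  have l1 := P.star_frame D H1 P.pl_a P.pl_vp hy hy' hl
  have l2 := P.star_frame D H2 P.pl_a P.pl_n hy hy' hl
  have l3 := P.star_frame D H3 pl_m P.pl_n hy hy' hl
  have l5 := P.star_frame D H5 P.pl_vi P.pl_b hy hy' hl
  omega

/-- the old charges on the contracted system -/
noncomputable def chg0 {σ : Type} [Fintype σ] (D : Chg C F σ) :
    Chg P.contract (F.res i p) σ where
  Z := D.Z
  hF := P.contract_good
  ZF := fun s l => D.ZF s l.1
  wit := fun s => by
    obtain ⟨y, h1, h2⟩ := D.wit s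
    exact ⟨y, P.mem_contract.2 ⟨h1, fun h => h2 (P.planar_Z D h1 h s)⟩, h2⟩
  star := by
    rintro _ ⟨f, H, rfl⟩ y hy hl
    rw [P.mem_contract] at hy
    convert P.star_zero D H hy.1 hy.2 hl

include P in
theorem pair_zero {f : Fac N ι} (H : Over C F i p f) {y : N}
    (hv : ∀ l : Rest i p, F.c (f.v l.1) i = 0 ∧ F.c (f.v l.1) p = 0)
    (hy : f.c y i = 0 ∧ f.c y p = 0) : F.c y i = 0 ∧ F.c y p = 0 := by
  have e : f.c y = f.c (∑ l : Rest i p, f.c y l.1 • f.v l.1) := by
    funext k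
    rw [map_sum, Finset.sum_apply]
    simp only [map_zsmul, Pi.smul_apply, C.cv_apply H.good, smul_eq_mul, mul_ite, mul_one,
      mul_zero]
    by_cases a1 : k = i
    · rw [a1, hy.1, Finset.sum_eq_zero fun l _ => if_neg l.2.1.symm]
    · by_cases a2 : k = p
      · rw [a2, hy.2, Finset.sum_eq_zero fun l _ => if_neg l.2.2.symm]
      · rw [Finset.sum_eq_single (⟨k, a1, a2⟩ : Rest i p)]
        · simp
        · intro l _ hl
          exact if_neg fun e => hl (Subtype.ext e.symm)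
        · simp
  rw [C.c_eq_of_c_eq H.good P.hF e, map_sum]
  simp only [Finset.sum_apply, map_zsmul, Pi.smul_apply, hv, smul_zero, sum_const_zero, and_self]

/-- two new charges for a hexagon which does not split -/
noncomputable def chg2 {σ : Type} [Fintype σ] (D : Chg C F σ) {m : N} (hm : m ∈ C.V)
    (cm : F.c m = -Pi.single p 1)
    (hns : ∃ x ∈ C.V, ¬ (F.c x i = 0 ∧ F.c x p = 0) ∧ ¬ Pl F i p x) :
    Chg P.contract (F.res i p) (σ ⊕ Bool) where
  Z := Sum.elim D.Z fun _ => {x | F.c x i = 0 ∧ F.c x p = 0}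
  hF := P.contract_good
  ZF := by
    rintro (s | s) l
    · exact D.ZF s l.1
    · change F.c (F.v l.1) i = 0 ∧ F.c (F.v l.1) p = 0
      rw [C.cv_apply P.hF, C.cv_apply P.hF, if_neg l.2.1.symm, if_neg l.2.2.symm]
      exact ⟨rfl, rfl⟩
  wit := by
    rintro (s | s)
    · exact (P.chg0 D).wit s
    · obtain ⟨x, h1, h2, h3⟩ := hns
      exact ⟨x, P.mem_contract.2 ⟨h1, h3⟩, h2⟩
  star := by
    classical
    rintro _ ⟨f, H, rfl⟩ y hy hl
    rw [P.mem_contract] at hy
    rw [Finset.card_filter, Fintype.sum_sum_type, ← Finset.card_filter]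
    simp only [Sum.elim_inl, Sum.elim_inr, Set.mem_ofPred_eq]
    by_cases hc : (∀ l : Rest i p, F.c ((f.res i p).v l) i = 0 ∧ F.c ((f.res i p).v l) p = 0) ∧
        ¬ (F.c y i = 0 ∧ F.c y p = 0)
    · have := P.star_one D H hm cm hy.1 hy.2 hl fun h => hc.2 (P.pair_zero H hc.1 h)
      simp only [if_pos hc, sum_const, card_univ, Fintype.card_bool, smul_eq_mul, mul_one]
      push_cast
      convert this
    · have := P.star_zero D H hy.1 hy.2 hl
      simp only [if_neg hc, sum_const, smul_zero, add_zero]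
      convert this

theorem sum_contract (l : Rest i p) :
    ∑ x ∈ P.contract.V, (F.res i p).c x l = ∑ x ∈ C.V, F.c x l.1 := by
  classical
  apply Finset.sum_subset_zero_on_sdiff
  · exact fun x hx => (P.mem_contract.1 hx).1
  · intro x hx
    rw [Finset.mem_sdiff, P.mem_contract] at hx
    have : Pl F i p x := by
      by_contra hc
      exact hx.2 ⟨hx.1, hc⟩
    exact this l.1 l.2.1 l.2.2
  · intro x _; rfl

theorem card_le_five (hm : ¬ ∃ m ∈ C.V, F.c m = -Pi.single p 1) :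
    C.V.card ≤ P.contract.V.card + 5 := by
  classical
  have : C.V ⊆ P.contract.V ∪ {F.v i, F.v p, P.a, P.b, P.n} := by
    intro x hx
    rw [Finset.mem_union, P.mem_contract]
    by_cases hp : Pl F i p x
    · right
      rcases P.planar hx hp with h | h | h | h | h | h
      · simp [h]
      · simp [h]
      · simp [h]
      · simp [h]
      · simp [h]
      · exact absurd ⟨x, hx, h⟩ hm
    · exact Or.inl ⟨hx, hp⟩
  exact le_trans (Finset.card_le_card this) (le_trans (Finset.card_union_le _ _)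
    (Nat.add_le_add_left Finset.card_le_five _))

theorem card_le_six {m : N} (hm : m ∈ C.V) (cm : F.c m = -Pi.single p 1) :
    C.V.card ≤ P.contract.V.card + 6 := by
  classical
  have : C.V ⊆ P.contract.V ∪ {F.v i, F.v p, P.a, P.b, P.n, m} := by
    intro x hx
    rw [Finset.mem_union, P.mem_contract]
    by_cases hp : Pl F i p x
    · right
      rcases P.planar hx hp with h | h | h | h | h | h
      · simp [h]
      · simp [h]
      · simp [h]
      · simp [h]
      · simp [h]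
      · simp [C.inj P.hF hx hm (h.trans cm.symm)]
    · exact Or.inl ⟨hx, hp⟩
  exact le_trans (Finset.card_le_card this) (le_trans (Finset.card_union_le _ _)
    (Nat.add_le_add_left Finset.card_le_six _))

include P in
theorem zero_glev {f : Fac N ι} (H : Over C F i p f) {x : N} (hx : x ∈ C.V) (hx' : ¬ Pl F i p x)
    (h0 : (f.res i p).lev x = 0) : f.c x i = 0 ∧ (f.c x p = 0 ∨ (f.c x p = -1 ∧
      ¬ ∃ m ∈ C.V, F.c m = -Pi.single p 1)) := by
  have hl : ∀ l : Rest i p, x ≠ (f.res i p).v l := fun l e => by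
    rw [e, Fac.res_v, P.res_lev_v H] at h0
    omega
  obtain ⟨g1, H1⟩ := P.frame1 H
  obtain ⟨g2, H2⟩ := P.frame2 H
  obtain ⟨g5, H5⟩ := P.frame5 H
  have l1 := C.lev_le _ H1.good x hx (frame_not_mem H1 P.pl_a P.pl_vp hx' hl)
  have l2 := C.lev_le _ H2.good x hx (frame_not_mem H2 P.pl_a P.pl_n hx' hl)
  have l5 := C.lev_le _ H5.good x hx (frame_not_mem H5 P.pl_vi P.pl_b hx' hl)
  rw [H1.lev P.ne, h0] at l1
  rw [H2.lev P.ne, h0] at l2
  rw [H5.lev P.ne, h0] at l5
  have xi : f.c x i = 0 := by omega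
  refine ⟨xi, ?_⟩
  by_cases xp : f.c x p = 0
  · exact Or.inl xp
  right
  have := C.coord_eq_neg_one H5.good (i := i) hx (by rw [H5.ci]; omega)
    (by rw [H5.lev P.ne, h0]; omega)
  rw [H5.ci] at this
  refine ⟨by omega, ?_⟩
  rintro ⟨m, hm, cm⟩
  obtain ⟨g3, H3⟩ := P.frame3 H hm cm
  have pl_m : Pl F i p m := fun l h1 h2 => by simp [cm, h2]
  have l3 := C.lev_le _ H3.good x hx (frame_not_mem H3 pl_m P.pl_n hx' hl)
  rw [H3.lev P.ne, h0] at l3
  omega

include P in
theorem zero_glev_unique {x y : N} (hx : x ∈ C.V) (hy : y ∈ C.V)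
    (hx0 : (F.res i p).lev x = 0) (hy0 : (F.res i p).lev y = 0) (xi : F.c x i = 0)
    (yi : F.c y i = 0) (xp : F.c x p = -1) (yp : F.c y p = -1) : x = y := by
  obtain ⟨g5, H5⟩ := P.frame5 (Over.refl P.hF i p)
  exact C.lev_zero_unique H5.good (i := i) hx hy (by rw [H5.ci]; omega) (by rw [H5.ci]; omega)
    (by rw [H5.lev P.ne]; omega) (by rw [H5.lev P.ne]; omega)

include P in
theorem no_sum (hm : ¬ ∃ m ∈ C.V, F.c m = -Pi.single p 1) {x y : N} (hx : x ∈ C.V)
    (hy : y ∈ C.V) (hx' : ¬ Pl F i p x) (h : F.c x + F.c y = -Pi.single p 1) : False := by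
  rcases C.square P.hF hx hy P.hn P.hb (by rw [h, P.cn, P.cb]; abel)
    (fun e => hx' (by rw [e]; exact P.pl_n)) (fun e => hx' (by rw [e]; exact P.pl_b)) with
    h1 | ⟨z, hz, h1⟩
  · rw [h] at h1
    have := congrFun h1 p
    simp at this
  · exact hm ⟨z, hz, h1.trans h⟩

theorem ext_res {g g' : ι → ℤ} (hi : g i = g' i) (hp : g p = g' p)
    (h : resHom i p g = resHom i p g') : g = g' := by
  funext l
  by_cases a1 : l = i
  · rw [a1, hi]
  · by_cases a2 : l = p
    · rw [a2, hp]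
    · exact congrFun h ⟨l, a1, a2⟩

theorem res_single (l : Rest i p) :
    resHom i p (Pi.single l.1 (1 : ℤ)) = Pi.single l 1 := by
  funext k
  change Pi.single (M := fun _ => ℤ) l.1 1 k.1 = _
  simp [Pi.single_apply, Subtype.ext_iff]

theorem lift_ab {l k : Rest i p} (hlk : k ≠ l) {a b : N} (ha : a ∈ P.contract.V)
    (hb : b ∈ P.contract.V) (ca : (F.res i p).c a = Pi.single k 1 - Pi.single l 1)
    (cb : (F.res i p).c b = Pi.single l 1 - Pi.single k 1) :
    F.c a = Pi.single k.1 1 - Pi.single l.1 1 := by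
  rw [P.mem_contract] at ha hb
  have a0 : (F.res i p).lev a = 0 := by simp [Fac.lev, ca, Finset.sum_sub_distrib]
  have b0 : (F.res i p).lev b = 0 := by simp [Fac.lev, cb, Finset.sum_sub_distrib]
  obtain ⟨ai, ap⟩ := P.zero_glev (Over.refl P.hF i p) ha.1 ha.2 a0
  obtain ⟨bi, bp⟩ := P.zero_glev (Over.refl P.hF i p) hb.1 hb.2 b0
  have hap : F.c a p = 0 := by
    rcases ap with ap | ⟨ap, hm⟩
    · exact ap
    exfalso
    rcases bp with bp | ⟨bp, -⟩
    · refine P.no_sum hm ha.1 hb.1 ha.2 (ext_res (i := i) (p := p) ?_ ?_ ?_)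
      · simp [ai, bi, P.ne.symm]
      · simp [ap, bp]
      · rw [map_add]
        change (F.res i p).c a + (F.res i p).c b = _
        rw [ca, cb]
        funext j
        change _ = -(Pi.single (M := fun _ => ℤ) p 1 j.1)
        simp [j.2.2]
    · have e := P.zero_glev_unique ha.1 hb.1 a0 b0 ai bi ap bp
      rw [e, cb] at ca
      have := congrFun ca l
      simp [hlk.symm] at this
  refine ext_res (i := i) (p := p) ?_ ?_ ?_
  · simp [ai, k.2.1.symm, l.2.1.symm]
  · simp [hap, k.2.2.symm, l.2.2.symm]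
  · rw [map_sub, res_single, res_single]; exact ca

theorem lift_n {l k : Rest i p} (hlk : k ≠ l) {a n : N} (ha : a ∈ C.V)
    (hn : n ∈ P.contract.V) (ca : F.c a = Pi.single k.1 1 - Pi.single l.1 1)
    (cn : (F.res i p).c n = -Pi.single l 1) : F.c n = -Pi.single l.1 1 := by
  rw [P.mem_contract] at hn
  have hlk' : k.1 ≠ l.1 := fun e => hlk (Subtype.ext e)
  obtain ⟨g, hg, -, h2, h3, h4, h5⟩ := C.step P.hF hlk' ha ca
  have H : Over C F i p g := ⟨hg, h2 i l.2.1.symm, h2 p l.2.2.symm⟩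
  have cn' : ∀ j : Rest i p, F.c n j.1 = -Pi.single (M := fun _ => ℤ) l 1 j := fun j => congrFun cn j
  have n0 : (g.res i p).lev n = 0 := by
    have : (g.res i p).c n = Pi.single l 1 - Pi.single k 1 := by
      funext j
      rw [Fac.res_c]
      by_cases a1 : j = l
      · subst a1; rw [h3, cn']; simp [hlk.symm]
      · by_cases a2 : j = k
        · subst a2; rw [h4, cn', cn']; simp [a1]
        · rw [h5 n j.1 (fun e => a1 (Subtype.ext e)) (fun e => a2 (Subtype.ext e)), cn']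
          simp [a1, a2]
    simp [Fac.lev, this, Finset.sum_sub_distrib]
  obtain ⟨ni, np⟩ := P.zero_glev H hn.1 hn.2 n0
  rw [h5 n i l.2.1.symm k.2.1.symm] at ni
  rw [h5 n p l.2.2.symm k.2.2.symm] at np
  have hnp : F.c n p = 0 := by
    rcases np with np | ⟨np, hm⟩
    · exact np
    exfalso
    refine P.no_sum hm hn.1 (C.mem F P.hF l.1) hn.2 (ext_res (i := i) (p := p) ?_ ?_ ?_)
    · simp [ni, C.cv F P.hF, P.ne.symm, l.2.1.symm]
    · simp [np, C.cv F P.hF, l.2.2.symm]
    · rw [map_add, C.cv F P.hF, res_single]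
      change (F.res i p).c n + _ = _
      rw [cn]
      funext j
      change _ = -(Pi.single (M := fun _ => ℤ) p 1 j.1)
      simp [j.2.2]
  refine ext_res (i := i) (p := p) ?_ ?_ ?_
  · simp [ni, l.2.1.symm]
  · simp [hnp, l.2.2.symm]
  · rw [map_neg, res_single]; exact cn

theorem lift_split {l k : Rest i p} (h : Split P.contract (F.res i p) l k) :
    Split C F l.1 k.1 := by
  obtain ⟨⟨hlk, a, ha, b, hb, n, hn, ca, cb, cn⟩, ⟨m, hm, cm⟩, hs⟩ := h
  have hlk' : k.1 ≠ l.1 := fun e => hlk (Subtype.ext e)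
  have ca' := P.lift_ab hlk ha hb ca cb
  have cb' := P.lift_ab hlk.symm hb ha cb ca
  have ha' := (P.mem_contract.1 ha).1
  have hb' := (P.mem_contract.1 hb).1
  have cn' := P.lift_n hlk ha' hn ca' cn
  have cm' := P.lift_n hlk.symm hb' hm cb' cm
  refine ⟨⟨hlk', a, ha', b, hb', n, (P.mem_contract.1 hn).1, ca', cb', cn'⟩,
    ⟨m, (P.mem_contract.1 hm).1, cm'⟩, fun x hx => ?_⟩
  by_cases hp : Pl F i p x
  · exact Or.inl ⟨hp _ l.2.1 l.2.2, hp _ k.2.1 k.2.2⟩
  have hx' : x ∈ P.contract.V := P.mem_contract.2 ⟨hx, hp⟩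
  rcases hs x hx' with h1 | h1
  · exact Or.inl h1
  right
  let Q : PD P.contract (F.res i p) l k := ⟨P.contract_good, hlk, a, b, n, ha, hb, hn, ca, cb, cn⟩
  intro j h2 h3
  rcases Q.planar hx' h1 with h | h | h | h | h | h
  · rw [h, Fac.res_v, C.cv_apply P.hF, if_neg h2]
  · rw [h, Fac.res_v, C.cv_apply P.hF, if_neg h3]
  · rw [h]; change F.c a j = 0; simp [ca', h2, h3]
  · rw [h]; change F.c b j = 0; simp [cb', h2, h3]
  · rw [h]; change F.c n j = 0; simp [cn', h2]
  · rw [P.contract.inj P.contract_good hx' hm (h.trans cm.symm)]; simp [cm', h3]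

theorem split_card_le (T : Finset ι) (hT : T ⊆ splitSet C F) (hT' : ∀ t ∈ T, t = i ∨ t = p) :
    (splitSet P.contract (F.res i p)).card + T.card ≤ (splitSet C F).card := by
  rw [← Finset.card_map ⟨Subtype.val, Subtype.val_injective⟩, ← Finset.card_union_of_disjoint]
  · apply Finset.card_le_card
    intro x hx
    rcases Finset.mem_union.1 hx with h | h
    · obtain ⟨l, hl, rfl⟩ := Finset.mem_map.1 h
      obtain ⟨k, hk⟩ := mem_splitSet.1 hl
      exact mem_splitSet.2 ⟨k.1, P.lift_split hk⟩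
    · exact hT h
  · refine Finset.disjoint_left.2 fun x h1 h2 => ?_
    obtain ⟨l, -, rfl⟩ := Finset.mem_map.1 h1
    rcases hT' _ h2 with h | h
    · exact l.2.1 h
    · exact l.2.2 h

end PD

theorem main_aux (r : ℕ) : ∀ (ι : Type) [Fintype ι] [DecidableEq ι] (C : Cfg N ι) (F : Fac N ι)
    (σ : Type) [Fintype σ] (_ : Chg C F σ), Fintype.card ι = r →
    (∀ l, 0 ≤ ∑ x ∈ C.V, F.c x l) →
    3 * C.V.card + Fintype.card σ ≤ 8 * Fintype.card ι + (splitSet C F).card := by
  induction r using Nat.strong_induction_on with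
  | _ r ih =>
    intro ι _ _ C F σ _ D hr hspec
    by_cases PF : ∀ i p, ¬ Pent C F i p
    · refine le_trans (D.core ?_ PF) (Nat.le_add_right _ _)
      unfold Fac.lev
      rw [Finset.sum_comm]
      exact Finset.sum_nonneg fun l _ => hspec l
    push Not at PF
    obtain ⟨i, p, h⟩ := PF
    obtain ⟨P⟩ := h.nonempty D.hF
    have hc := card_rest P.ne
    have hspec' : ∀ l, 0 ≤ ∑ x ∈ P.contract.V, (F.res i p).c x l := fun l => by
      rw [P.sum_contract]; exact hspec l.1
    have h0 := P.split_card_le ∅ (Finset.empty_subset _) (by simp)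
    have ih0 := ih _ (by omega) _ P.contract (F.res i p) σ (P.chg0 D) rfl hspec'
    by_cases hm : ∃ m ∈ C.V, F.c m = -Pi.single p 1
    · obtain ⟨m, hm, cm⟩ := hm
      have h6 := P.card_le_six hm cm
      by_cases hs : ∀ x ∈ C.V, (F.c x i = 0 ∧ F.c x p = 0) ∨ Pl F i p x
      · have hsp : Split C F i p := ⟨h, ⟨m, hm, cm⟩, hs⟩
        have h2 := P.split_card_le {i, p} (by
          intro t ht
          rcases Finset.mem_insert.1 ht with rfl | ht
          · exact mem_splitSet.2 ⟨p, hsp⟩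
          · rw [Finset.mem_singleton.1 ht]; exact mem_splitSet.2 ⟨i, hsp.symm⟩) (by simp)
        rw [Finset.card_pair P.ne.symm] at h2
        omega
      · have hns : ∃ x ∈ C.V, ¬ (F.c x i = 0 ∧ F.c x p = 0) ∧ ¬ Pl F i p x := by
          by_contra hc
          apply hs
          intro x hx
          by_contra hc2
          exact hc ⟨x, hx, fun h => hc2 (Or.inl h), fun h => hc2 (Or.inr h)⟩
        have ih2 := ih _ (by omega) _ P.contract (F.res i p) _ (P.chg2 D hm cm hns) rfl hspec'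
        rw [Fintype.card_sum, Fintype.card_bool] at ih2
        omega
    · have h5 := P.card_le_five hm
      omega

/-- The main inequality at a special facet. -/
theorem main_ineq (C : Cfg N ι) {F0 : Fac N ι} (h0 : C.good F0) :
    ∃ F, C.good F ∧ 3 * C.V.card ≤ 8 * Fintype.card ι + (splitSet C F).card := by
  obtain ⟨F, hF, h⟩ := C.cone h0 (∑ x ∈ C.V, x) C.V.card (fun g hg => by
    have : g.lev (∑ x ∈ C.V, x) = ∑ x ∈ C.V, g.lev x := by
      unfold Fac.lev
      rw [Finset.sum_comm, map_sum]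
      simp [Finset.sum_apply]
    rw [this]
    simpa using Finset.sum_le_card_nsmul C.V g.lev 1 fun x hx => C.lev_le_one hg hx)
  refine ⟨F, hF, ?_⟩
  have := main_aux _ ι C F Empty
    ⟨fun s => s.elim, hF, fun s => s.elim, fun s => s.elim, fun f hf y hy hn => by
      have := C.lev_le f hf y hy hn
      simp only [univ_eq_empty, filter_empty, card_empty, Nat.cast_zero]
      omega⟩ rfl (fun l => by simpa [map_sum, Finset.sum_apply] using h l)
  simpa using this

end Pool.Agent.P.MP_a05398_ag
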