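import Pool.Agent.P.MP_a05398_ag.Cfg

set_option autoImplicit false
set_option linter.unusedSectionVars false

open Finset

namespace Pool.Agent.P.MP_a05398_ag

variable {N ι : Type} [AddCommGroup N] [Fintype ι] [DecidableEq ι]

open Classical in
/-- A family of charges: each index `s` singles out the vertices outside `Z s`. -/
structure Chg (C : Cfg N ι) (F : Fac N ι) (σ : Type) [Fintype σ] where
  Z : σ → Set N
  hF : C.good F
  ZF : ∀ s i, F.v i ∈ Z s
  wit : ∀ s, ∃ y ∈ C.V, y ∉ Z s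
  star : ∀ f, C.good f → ∀ y ∈ C.V, (∀ i, y ≠ f.v i) →
    ((univ.filter fun s => (∀ i, f.v i ∈ Z s) ∧ y ∉ Z s).card : ℤ) ≤ -2 * f.lev y

namespace Chg
variable {C : Cfg N ι} {F : Fac N ι} {σ : Type} [Fintype σ] (D : Chg C F σ)

theorem Z_of_lev_zero {f : Fac N ι} (hf : C.good f) (hZ : ∀ s i, f.v i ∈ D.Z s) {y : N}
    (hy : y ∈ C.V) (h0 : f.lev y = 0) (s : σ) : y ∈ D.Z s := by
  classical
  by_contra hn
  have h1 := D.star f hf y hy (fun i h => by rw [h, C.lev_v hf] at h0; omega)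
  rw [h0] at h1
  have : 0 < (univ.filter fun s => (∀ i, f.v i ∈ D.Z s) ∧ y ∉ D.Z s).card :=
    Finset.card_pos.2 ⟨s, by simp [hZ, hn]⟩
  have h2 : (0 : ℤ) < _ := Int.natCast_pos.2 this
  exact absurd (lt_of_lt_of_le h2 (by convert h1)) (by simp)

noncomputable def fl (i : ι) : Fac N ι := (C.flip F D.hF i).choose

theorem fl_good (i : ι) : C.good (D.fl i) := (C.flip F D.hF i).choose_spec.1

theorem fl_flip (i : ι) : IsFlip F (D.fl i) i := (C.flip F D.hF i).choose_spec.2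

/-- the vertex opposite to the `i`-th vertex of `F` -/
noncomputable def w (i : ι) : N := (D.fl i).v i

theorem w_mem (i : ι) : D.w i ∈ C.V := C.mem _ (D.fl_good i) i

theorem w_neg (i : ι) : F.c (D.w i) i = -1 := (D.fl_flip i).neg

theorem w_lev (i : ι) : F.lev (D.w i) ≤ 0 := C.flip_lev_le D.hF (D.fl_good i) (D.fl_flip i)

theorem fl_lev (i : ι) (x : N) :
    (D.fl i).lev x = F.lev x + F.c x i * (F.lev (D.w i) - 1) := (D.fl_flip i).lev_eq x

theorem fl_c (i : ι) (x : N) {j : ι} (hj : j ≠ i) :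
    (D.fl i).c x j = F.c x j + F.c x i * F.c (D.w i) j := (D.fl_flip i).c_ne x j hj

theorem eq_w {x : N} (hx : x ∈ C.V) {i : ι} (hneg : F.c x i < 0) (h0 : F.lev x = 0) :
    x = D.w i := C.eq_flip_of_lev_zero D.hF (D.fl_good i) (D.fl_flip i) hx hneg h0

theorem fl_Z {i : ι} (h0 : F.lev (D.w i) = 0) (s : σ) (j : ι) : (D.fl i).v j ∈ D.Z s := by
  by_cases hj : j = i
  · rw [hj]; exact D.Z_of_lev_zero D.hF D.ZF (D.w_mem i) h0 s
  · rw [(D.fl_flip i).v_ne j hj]; exact D.ZF s j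

def free (y : N) : Prop := ∃ i, F.lev (D.w i) = 0 ∧ F.c y i ≤ -2

open Classical in
noncomputable def rho (y : N) : ℤ := if D.free y then 0 else -F.lev y

theorem exists_sel (s : σ) : ∃ y, y ∈ C.V ∧ y ∉ D.Z s ∧
    ∀ v ∈ C.V, v ∉ D.Z s → D.rho y ≤ D.rho v := by
  classical
  obtain ⟨y, hy, hmin⟩ := Finset.exists_min_image (C.V.filter fun v => v ∉ D.Z s) D.rho (by
    obtain ⟨y, h1, h2⟩ := D.wit s
    exact ⟨y, by simp [h1, h2]⟩)
  rw [Finset.mem_filter] at hy
  exact ⟨y, hy.1, hy.2, fun v h1 h2 => hmin v (by simp [h1, h2])⟩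

noncomputable def sel (s : σ) : N := (D.exists_sel s).choose

open Classical in
noncomputable def cc (y : N) : ℕ := (univ.filter fun s => D.sel s = y).card

theorem cc_le {f : Fac N ι} (hf : C.good f) {y : N} (hy : y ∈ C.V) (hn : ∀ j, y ≠ f.v j)
    (hadm : ∀ j, (∀ s, f.v j ∈ D.Z s) ∨ D.rho (f.v j) < D.rho y) :
    (D.cc y : ℤ) ≤ -2 * f.lev y := by
  classical
  refine le_trans ?_ (D.star f hf y hy hn)
  unfold cc
  refine Int.ofNat_le.2 (Finset.card_le_card ?_)
  intro s hs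
  simp only [Finset.mem_filter, Finset.mem_univ, true_and] at hs ⊢
  obtain ⟨-, h2, h3⟩ := (D.exists_sel s).choose_spec
  change D.sel s ∉ _ at h2
  change ∀ v ∈ C.V, v ∉ D.Z s → D.rho (D.sel s) ≤ D.rho v at h3
  rw [hs] at h2 h3
  refine ⟨fun j => ?_, h2⟩
  rcases hadm j with h | h
  · exact h s
  · by_contra hc
    exact absurd (h3 _ (C.mem f hf j) hc) (not_le.2 h)

noncomputable def cost (y : N) : ℤ := 3 + D.cc y + 2 * F.lev y

theorem cost_le_three {y : N} (hy : y ∈ C.V) (hn : ∀ j, y ≠ F.v j) : D.cost y ≤ 3 := by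
  have := D.cc_le D.hF hy hn (fun j => Or.inl fun s => D.ZF s j)
  unfold cost; omega

theorem cost_free {y : N} (hy : y ∈ C.V) (h : D.free y) : D.cost y ≤ -1 := by
  obtain ⟨i, h0, h2⟩ := h
  have hne : y ≠ D.w i := by
    intro e
    rw [e, D.w_neg] at h2
    omega
  have := D.cc_le (D.fl_good i) hy
    (C.not_mem_flip D.hF (D.fl_flip i) (l := i) (by omega) hne) (fun j => Or.inl fun s => D.fl_Z h0 s j)
  rw [D.fl_lev, h0] at this
  unfold cost; omega

theorem rho_lt {v y : N} (hy : ¬ D.free y) (h1 : F.lev y ≤ -1)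
    (h : D.free v ∨ F.lev y < F.lev v) : D.rho v < D.rho y := by
  unfold rho
  rw [if_neg hy]
  split_ifs with hv
  · omega
  · rcases h with h | h
    · exact absurd h hv
    · omega

theorem cost_le_one {x : N} (hx : x ∈ C.V) {l : ι} (hneg : F.c x l < 0) (hne : x ≠ D.w l) :
    D.cost x ≤ 1 ∧ (0 < D.cost x → F.c x l = -1 ∧ F.lev (D.w l) = 0) := by
  by_cases hfree : D.free x
  · have := D.cost_free hx hfree
    exact ⟨by omega, fun h => by omega⟩
  have h1 := C.flip_ineq D.hF (D.fl_good l) (D.fl_flip l) hx hneg hne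
  change F.lev x + F.c x l * (F.lev (D.w l) - 1) ≤ 0 at h1
  have h2 := D.w_lev l
  have h3 : 1 - F.lev (D.w l) ≤ F.c x l * (F.lev (D.w l) - 1) := by nlinarith
  have h4 := D.cc_le (D.fl_good l) hx (C.not_mem_flip D.hF (D.fl_flip l) hneg hne) (fun j => by
    by_cases hj : j = l
    · right
      rw [hj]
      exact D.rho_lt hfree (by omega) (Or.inr (by change _ < F.lev (D.w l); omega))
    · left
      intro s
      rw [(D.fl_flip l).v_ne j hj]; exact D.ZF s j)
  rw [D.fl_lev] at h4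
  refine ⟨by unfold cost; omega, fun h => ?_⟩
  have h5 : F.c x l * (F.lev (D.w l) - 1) ≤ 1 := by unfold cost at h; omega
  have h6 : F.lev (D.w l) = 0 := by omega
  rw [h6] at h5
  exact ⟨by omega, h6⟩

theorem lev_le_neg_one {x : N} (hx : x ∈ C.V) {l : ι} (hneg : F.c x l < 0) (hne : x ≠ D.w l) :
    F.lev x ≤ -1 := by
  have h1 := C.lev_le_of_neg D.hF hx hneg
  by_contra hc
  exact hne (D.eq_w hx hneg (by omega))

/-- second flips: a vertex of positive cost must be the opposite vertex -/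
theorem eq_second {y : N} (hy : y ∈ C.V) (hpos : 0 < D.cost y) {i l : ι} (hneg : F.c y i < 0)
    (hne : y ≠ D.w i) (hl : l ≠ i) (hlt : F.c y l < F.c (D.w i) l) {g : Fac N ι}
    (hg : C.good g) (hfl : IsFlip (D.fl i) g l) : y = g.v l := by
  obtain ⟨hy1, hw0⟩ := (D.cost_le_one hy hneg hne).2 hpos
  have hfree : ¬ D.free y := fun h => by have := D.cost_free hy h; omega
  have hlev := D.lev_le_neg_one hy hneg hne
  by_contra hne2
  have hc : (D.fl i).c y l < 0 := by rw [D.fl_c i y hl, hy1]; omega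
  have h1 := C.flip_ineq (D.fl_good i) hg hfl hy hc hne2
  have h2 := C.flip_lev_le (D.fl_good i) hg hfl
  have h3 : 1 - (D.fl i).lev (g.v l) ≤ (D.fl i).c y l * ((D.fl i).lev (g.v l) - 1) := by nlinarith
  have h4 := D.cc_le hg hy (C.not_mem_flip (D.fl_good i) hfl hc hne2) (fun j => by
    by_cases hj : j = l
    · right
      rw [hj]
      apply D.rho_lt hfree hlev
      by_cases hv : F.c (g.v l) i ≤ -2
      · exact Or.inl ⟨i, hw0, hv⟩
      · right
        have e1 := D.fl_lev i (g.v l)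
        have e2 := D.fl_lev i y
        rw [hw0] at e1 e2
        rw [hy1] at e2
        omega
    · left
      intro s
      rw [hfl.v_ne j hj]; exact D.fl_Z hw0 s j)
  rw [hfl.lev_eq] at h4
  have e2 := D.fl_lev i y
  rw [hw0, hy1] at e2
  unfold cost at hpos
  omega

theorem second_coord {y : N} (hy : y ∈ C.V) (hpos : 0 < D.cost y) {i l : ι} (hneg : F.c y i < 0)
    (hne : y ≠ D.w i) (hl : l ≠ i) (hlt : F.c y l < F.c (D.w i) l) :
    F.c y l = F.c (D.w i) l - 1 := by
  obtain ⟨g, hg, hfl⟩ := C.flip _ (D.fl_good i) l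
  have e := D.eq_second hy hpos hneg hne hl hlt hg hfl
  have h1 := hfl.neg
  rw [← e, D.fl_c i y hl, ((D.cost_le_one hy hneg hne).2 hpos).1] at h1
  omega

theorem w_nonneg {i j : ι} (h0 : F.lev (D.w i) = 0) (hne : D.w i ≠ D.w j) :
    0 ≤ F.c (D.w i) j := by
  by_contra hc
  exact hne (D.eq_w (D.w_mem i) (by omega) h0)

theorem w_eq_of_neg {y : N} (hy : y ∈ C.V) (hpos : 0 < D.cost y) (hW : ∀ l, y ≠ D.w l)
    {i j : ι} (hi : F.c y i < 0) (hj : F.c y j < 0) : D.w i = D.w j := by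
  by_contra hne
  have hij : j ≠ i := fun h => hne (by rw [h])
  obtain ⟨yi, wi⟩ := (D.cost_le_one hy hi (hW i)).2 hpos
  obtain ⟨yj, wj⟩ := (D.cost_le_one hy hj (hW j)).2 hpos
  have a1 := D.w_nonneg wi hne
  have a2 := D.w_nonneg wj (Ne.symm hne)
  have b1 := D.second_coord hy hpos hi (hW i) hij (by omega)
  have b2 := D.second_coord hy hpos hj (hW j) hij.symm (by omega)
  obtain ⟨g, hg, hfl⟩ := C.flip _ (D.fl_good i) j
  have e := D.eq_second hy hpos hi (hW i) hij (by omega) hg hfl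
  have e2 : D.w j = g.v j := by
    apply C.eq_flip_of_lev_zero (D.fl_good i) hg hfl (D.w_mem j)
    · rw [D.fl_c i _ hij, D.w_neg, show F.c (D.w j) i = 0 by omega]; omega
    · rw [D.fl_lev, wj, show F.c (D.w j) i = 0 by omega]; omega
  exact hW j (e.trans e2.symm)

end Chg

end Pool.Agent.P.MP_a05398_ag
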