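import Pool.Agent.P.MP_a05398_ag.Core1

set_option autoImplicit false
set_option linter.unusedSectionVars false

open Finset

namespace Pool.Agent.P.MP_a05398_ag

variable {N ι : Type} [AddCommGroup N] [Fintype ι] [DecidableEq ι]

theorem eq_neg_single {g : ι → ℤ} {i : ι} (hi : g i = -1) (h0 : ∀ l, l ≠ i → 0 ≤ g l)
    (hs : ∑ l, g l ≤ -1) : g = -Pi.single i 1 := by
  rw [← Finset.add_sum_erase _ _ (Finset.mem_univ i), hi] at hs
  have h1 : ∀ l ∈ univ.erase i, 0 ≤ g l := fun l hl => h0 l (Finset.ne_of_mem_erase hl)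
  have h2 := Finset.sum_nonneg h1
  have h3 := (Finset.sum_eq_zero_iff_of_nonneg h1).1 (by omega)
  funext l
  by_cases hl : l = i
  · subst hl; simp [hi]
  · simp [hl, h3 l (by simp [hl])]

theorem eq_single_sub {g : ι → ℤ} {i : ι} (hi : g i = -1) (h0 : ∀ l, l ≠ i → 0 ≤ g l)
    (hs : ∑ l, g l = 0) : ∃ p, p ≠ i ∧ g = Pi.single p 1 - Pi.single i 1 := by
  obtain ⟨p, hp, hp0⟩ : ∃ p, p ≠ i ∧ g p ≠ 0 := by
    by_contra hc
    push Not at hc
    rw [← Finset.add_sum_erase _ _ (Finset.mem_univ i), hi,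
      Finset.sum_eq_zero fun l hl => hc l (Finset.ne_of_mem_erase hl)] at hs
    omega
  refine ⟨p, hp, ?_⟩
  have h1 := h0 p hp
  have := eq_neg_single (g := g - Pi.single p 1) (i := i) (by simp [hi, hp.symm]) (fun l hl => by
    have := h0 l hl
    by_cases hlp : l = p
    · subst hlp; simp; omega
    · simp [hlp, this]) (by simp [Finset.sum_sub_distrib, hs])
  rw [sub_eq_iff_eq_add] at this
  rw [this]; abel

theorem card_le_of_sum_nonpos {g : ι → ℤ} (A B : Finset ι) (hA : ∀ l ∈ A, 1 ≤ g l)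
    (hB : ∀ l, l ∉ B → 0 ≤ g l) (hB' : ∀ l ∈ B, -1 ≤ g l) (hAB : Disjoint A B) :
    (A.card : ℤ) - B.card ≤ ∑ l, g l := by
  have : ∑ l, ((if l ∈ A then (1 : ℤ) else 0) - (if l ∈ B then (1 : ℤ) else 0)) ≤ ∑ l, g l := by
    apply Finset.sum_le_sum
    intro l _
    by_cases h1 : l ∈ A
    · have h2 : l ∉ B := Finset.disjoint_left.1 hAB h1
      simp only [h1, h2, if_true, if_false]
      have := hA l h1; omega
    · by_cases h2 : l ∈ B
      · simp only [h1, h2, if_true, if_false]
        have := hB' l h2; omega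
      · simp only [h1, h2, if_false]
        have := hB l h2; omega
  simpa [Finset.sum_sub_distrib] using this

namespace Chg
variable {C : Cfg N ι} {F : Fac N ι} {σ : Type} [Fintype σ] (D : Chg C F σ)

open Classical in
noncomputable def NW (x : N) : Finset ι := univ.filter fun i => D.w i = x

theorem mem_NW {x : N} {i : ι} : i ∈ D.NW x ↔ D.w i = x := by simp [NW]

def Pos (F : Fac N ι) (x : N) : Finset ι := univ.filter fun i => 0 < F.c x i

theorem nonneg_of_not_NW {x : N} (hx : x ∈ C.V) (h0 : F.lev x = 0) {l : ι} (hl : l ∉ D.NW x) :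
    0 ≤ F.c x l := by
  by_contra hc
  exact hl (D.mem_NW.2 (D.eq_w hx (by omega) h0).symm)

theorem neg_of_NW {x : N} {l : ι} (hl : l ∈ D.NW x) : F.c x l = -1 := by
  rw [← D.mem_NW.1 hl, D.w_neg]

theorem card_Pos_le {x : N} (hx : x ∈ C.V) (h0 : F.lev x = 0) :
    (Pos F x).card ≤ (D.NW x).card := by
  have := card_le_of_sum_nonpos (g := F.c x) (Pos F x) (D.NW x)
    (fun l hl => by simp only [Pos, mem_filter] at hl; omega)
    (fun l hl => D.nonneg_of_not_NW hx h0 hl) (fun l hl => by rw [D.neg_of_NW hl])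
    (Finset.disjoint_left.2 fun l h1 h2 => by
      simp only [Pos, mem_filter] at h1
      have := D.neg_of_NW h2; omega)
  change _ ≤ F.lev x at this
  omega

/-- `y` has positive cost, is no opposite vertex, and hangs on the level zero vertex `x`. -/
structure Inner (y x : N) : Prop where
  mem : y ∈ C.V
  notW : ∀ l, y ≠ D.w l
  pos : 0 < D.cost y
  ex : ∃ i, F.c y i < 0 ∧ D.w i = x

variable {D}

theorem Inner.x_mem {y x : N} (h : D.Inner y x) : x ∈ C.V := by
  obtain ⟨i, -, rfl⟩ := h.ex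
  exact D.w_mem i

theorem Inner.x_lev {y x : N} (h : D.Inner y x) : F.lev x = 0 := by
  obtain ⟨i, hi, rfl⟩ := h.ex
  exact ((D.cost_le_one h.mem hi (h.notW i)).2 h.pos).2

theorem Inner.y_lev {y x : N} (h : D.Inner y x) : F.lev y ≤ -1 := by
  obtain ⟨i, hi, rfl⟩ := h.ex
  exact D.lev_le_neg_one h.mem hi (h.notW i)

theorem Inner.neg {y x : N} (h : D.Inner y x) {l : ι} (hl : F.c y l < 0) :
    F.c y l = -1 ∧ l ∈ D.NW x := by
  obtain ⟨i, hi, rfl⟩ := h.ex
  exact ⟨((D.cost_le_one h.mem hl (h.notW l)).2 h.pos).1,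
    D.mem_NW.2 (D.w_eq_of_neg h.mem h.pos h.notW hl hi)⟩

theorem Inner.ge {y x : N} (h : D.Inner y x) (l : ι) : -1 ≤ F.c y l := by
  by_contra hc
  have := (h.neg (l := l) (by omega)).1
  omega

def NY (F : Fac N ι) (y : N) : Finset ι := univ.filter fun i => F.c y i < 0

def LY (F : Fac N ι) (y x : N) : Finset ι := univ.filter fun l => F.c y l < F.c x l

theorem Inner.NY_sub {y x : N} (h : D.Inner y x) : NY F y ⊆ D.NW x := by
  intro l hl
  simp only [NY, mem_filter] at hl
  exact (h.neg hl.2).2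

theorem Inner.LY_not {y x : N} (h : D.Inner y x) {l : ι} (hl : F.c y l < F.c x l) :
    l ∉ D.NW x := by
  intro hc
  have := D.neg_of_NW hc
  have := h.ge l
  omega

theorem Inner.LY_coord {y x : N} (h : D.Inner y x) {l : ι} (hl : F.c y l < F.c x l) :
    F.c y l = F.c x l - 1 := by
  obtain ⟨i, hi, rfl⟩ := h.ex
  exact D.second_coord h.mem h.pos hi (h.notW i)
    (fun e => h.LY_not hl (D.mem_NW.2 (by rw [e]))) hl

theorem Inner.LY_sub {y x : N} (h : D.Inner y x) : LY F y x ⊆ Pos F x := by
  intro l hl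
  simp only [LY, Pos, mem_filter, mem_univ, true_and] at hl ⊢
  have h1 := h.LY_not hl
  have h2 : 0 ≤ F.c y l := by
    by_contra hc
    exact h1 (h.neg (by omega)).2
  omega

theorem Inner.card_ge {y x : N} (h : D.Inner y x) :
    (D.NW x).card + 1 ≤ (NY F y).card + (LY F y x).card := by
  have := card_le_of_sum_nonpos (g := F.c y - F.c x) (D.NW x \ NY F y) (LY F y x)
    (fun l hl => by
      simp only [NY, mem_sdiff, mem_filter, mem_univ, true_and, not_lt] at hl
      have := D.neg_of_NW hl.1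
      simp only [Pi.sub_apply]; omega)
    (fun l hl => by
      simp only [LY, mem_filter, mem_univ, true_and, not_lt] at hl
      simp only [Pi.sub_apply]; omega)
    (fun l hl => by
      simp only [LY, mem_filter, mem_univ, true_and] at hl
      have := h.LY_coord hl
      simp only [Pi.sub_apply]; omega)
    (Finset.disjoint_left.2 fun l h1 h2 => by
      simp only [LY, mem_filter, mem_univ, true_and] at h2
      exact h.LY_not h2 (Finset.mem_sdiff.1 h1).1)
  simp only [Pi.sub_apply, Finset.sum_sub_distrib] at this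
  change _ ≤ F.lev y - F.lev x at this
  have h1 := h.x_lev
  have h2 := h.y_lev
  have h3 := Finset.card_sdiff_add_card_eq_card h.NY_sub
  omega

theorem Inner.unique {y y' x : N} (h : D.Inner y x) (h' : D.Inner y' x) {i l : ι}
    (hi : F.c y i < 0) (hi' : F.c y' i < 0) (hl : F.c y l < F.c x l) (hl' : F.c y' l < F.c x l) :
    y = y' := by
  have e := D.mem_NW.1 (h.neg hi).2
  have hli : l ≠ i := fun e2 => h.LY_not hl (e2 ▸ (h.neg hi).2)
  obtain ⟨g, hg, hfl⟩ := C.flip _ (D.fl_good i) l
  rw [D.eq_second h.mem h.pos hi (h.notW i) hli (by rwa [e]) hg hfl,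
    D.eq_second h'.mem h'.pos hi' (h'.notW i) hli (by rwa [e]) hg hfl]

variable (D)

open Classical in
noncomputable def In (x : N) : Finset N := C.V.filter fun y => D.Inner y x

theorem mem_In {x y : N} : y ∈ D.In x ↔ D.Inner y x := by
  simp only [In, mem_filter]
  exact ⟨fun h => h.2, fun h => ⟨h.mem, h⟩⟩

theorem card_In_le (x : N) : (D.In x).card ≤ (D.NW x).card := by
  classical
  rcases (D.In x).eq_empty_or_nonempty with h | ⟨y0, hy0⟩
  · simp [h]
  have h0 := D.mem_In.1 hy0
  set m := (D.NW x).card with hm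
  have hm1 : 1 ≤ m := by
    obtain ⟨i, -, hi⟩ := h0.ex
    exact Finset.card_pos.2 ⟨i, D.mem_NW.2 hi⟩
  have hP := D.card_Pos_le h0.x_mem h0.x_lev
  have h1 : ((D.In x).biUnion fun y => NY F y ×ˢ LY F y x).card
      = ∑ y ∈ D.In x, (NY F y ×ˢ LY F y x).card := by
    apply Finset.card_biUnion
    intro y hy y' hy' hne
    refine Finset.disjoint_left.2 fun q h1 h2 => hne ?_
    simp only [mem_product, NY, LY, mem_filter, mem_univ, true_and] at h1 h2
    exact (D.mem_In.1 hy).unique (D.mem_In.1 hy') h1.1 h2.1 h1.2 h2.2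
  have h2 : ((D.In x).biUnion fun y => NY F y ×ˢ LY F y x) ⊆ D.NW x ×ˢ Pos F x := by
    intro q hq
    rw [Finset.mem_biUnion] at hq
    obtain ⟨y, hy, hq⟩ := hq
    exact Finset.product_subset_product (D.mem_In.1 hy).NY_sub (D.mem_In.1 hy).LY_sub hq
  have h3 := Finset.card_le_card h2
  rw [h1, Finset.card_product] at h3
  have h4 : (D.In x).card * m ≤ ∑ y ∈ D.In x, (NY F y ×ˢ LY F y x).card := by
    rw [← smul_eq_mul]
    apply Finset.card_nsmul_le_sum
    intro y hy
    have hy := D.mem_In.1 hy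
    rw [Finset.card_product]
    have a1 := hy.card_ge
    have a2 := Finset.card_le_card hy.NY_sub
    have a3 : 1 ≤ (NY F y).card := by
      obtain ⟨i, hi, -⟩ := hy.ex
      exact Finset.card_pos.2 ⟨i, by simp [NY, hi]⟩
    rw [← hm] at a1 a2
    obtain ⟨a, ha⟩ : ∃ a, (NY F y).card = a + 1 := ⟨(NY F y).card - 1, by omega⟩
    obtain ⟨b, hb⟩ : ∃ b, m = a + 1 + b := ⟨m - (a + 1), by omega⟩
    have a4 : b + 1 ≤ (LY F y x).card := by omega
    rw [ha, hb]
    nlinarith
  have h5 : (D.In x).card * m ≤ m * m := le_trans h4 (le_trans h3 (Nat.mul_le_mul_left _ hP))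
  exact Nat.le_of_mul_le_mul_right h5 hm1

/-- `y = -e_i` and `w_i = e_p - e_i`. -/
structure APair (y : N) (i p : ι) : Prop where
  mem : y ∈ C.V
  ne : p ≠ i
  cy : F.c y = -Pi.single i 1
  cw : F.c (D.w i) = Pi.single p 1 - Pi.single i 1

variable {D}

theorem Inner.apair {y x : N} (h : D.Inner y x) (h1 : (D.NW x).card = 1) :
    ∃ i p, D.APair y i p := by
  obtain ⟨i, hi, hw⟩ := h.ex
  obtain ⟨a, ha⟩ := Finset.card_eq_one.1 h1
  have hia : i = a := by
    have := D.mem_NW.2 hw
    rwa [ha, Finset.mem_singleton] at this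
  subst hia
  have hn : ∀ l, l ≠ i → l ∉ D.NW x := fun l hl hc => by
    rw [ha, Finset.mem_singleton] at hc
    exact hl hc
  obtain ⟨p, hp, hx⟩ := eq_single_sub (g := F.c x) (i := i) (by rw [← hw, D.w_neg])
    (fun l hl => D.nonneg_of_not_NW h.x_mem h.x_lev (hn l hl)) h.x_lev
  refine ⟨i, p, h.mem, hp, eq_neg_single (h.neg hi).1 (fun l hl => ?_) h.y_lev, by rw [hw, hx]⟩
  by_contra hc
  exact hn l hl (h.neg (by omega)).2

theorem APair.w_lev {y : N} {i p : ι} (h : D.APair y i p) : F.lev (D.w i) = 0 := by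
  simp [Fac.lev, h.cw, Finset.sum_sub_distrib]

theorem APair.y_lev {y : N} {i p : ι} (h : D.APair y i p) : F.lev y = -1 := by
  simp [Fac.lev, h.cy]

theorem APair.fl_lev {y : N} {i p : ι} (h : D.APair y i p) (x : N) :
    (D.fl i).lev x = F.lev x - F.c x i := by
  rw [D.fl_lev, h.w_lev]; ring

theorem APair.fl_cp {y : N} {i p : ι} (h : D.APair y i p) (x : N) :
    (D.fl i).c x p = F.c x p + F.c x i := by
  rw [D.fl_c i x h.ne, h.cw]; simp [h.ne]

theorem APair.fl_c {y : N} {i p : ι} (h : D.APair y i p) (x : N) {l : ι} (h1 : l ≠ i)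
    (h2 : l ≠ p) : (D.fl i).c x l = F.c x l := by
  rw [D.fl_c i x h1, h.cw]; simp [h1, h2]

theorem APair.y_fl_lev {y : N} {i p : ι} (h : D.APair y i p) : (D.fl i).lev y = 0 := by
  rw [h.fl_lev, h.y_lev, h.cy]; simp

theorem APair.y_fl_cp {y : N} {i p : ι} (h : D.APair y i p) : (D.fl i).c y p = -1 := by
  rw [h.fl_cp, h.cy]; simp [h.ne]

theorem APair.unique {y y' : N} {i i' p : ι} (h : D.APair y i p) (h' : D.APair y' i' p) :
    y = y' := by
  by_cases hii : i = i'
  · subst hii
    exact C.inj D.hF h.mem h'.mem (by rw [h.cy, h'.cy])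
  exfalso
  have hp := h.ne
  have hp' := h'.ne
  have hii' : i' ≠ i := fun e => hii e.symm
  have key := C.square D.hF (D.w_mem i) h'.mem (D.w_mem i') h.mem
    (by rw [h.cw, h'.cw, h.cy, h'.cy]; abel)
    (fun e => by
      have := congrFun (congrArg F.c e) i
      rw [h.cw, h'.cw] at this
      simp [hp.symm, hii] at this)
    (fun e => by
      have := congrFun (congrArg F.c e) p
      rw [h.cw, h.cy] at this
      simp [hp] at this)
  rw [h.cw, h'.cy] at key
  rcases key with h0 | ⟨z, hz, hc⟩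
  · have := congrFun h0 p
    simp [hp, hp'] at this
  · have e := C.lev_zero_unique (D.fl_good i) (i := i') hz (D.w_mem i')
      (by rw [h.fl_c _ hii' hp'.symm, hc]; simp [hii', hp'.symm])
      (by rw [h.fl_c _ hii' hp'.symm, D.w_neg]; omega)
      (by rw [h.fl_lev, Fac.lev, hc]; simp [Finset.sum_add_distrib, Finset.sum_sub_distrib, hp.symm, hii])
      (by rw [h.fl_lev, h'.w_lev, h'.cw]; simp [hp.symm, hii])
    have := congrFun (congrArg F.c e) i
    rw [hc, h'.cw] at this
    simp [hp.symm, hii] at this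

theorem APair.pos_of_lev_zero {y : N} {i p : ι} (h : D.APair y i p) (h0 : F.lev (D.w p) = 0) :
    1 ≤ F.c (D.w p) i := by
  have hne : D.w p ≠ D.w i := fun e => by
    have := D.w_neg p
    rw [e, h.cw] at this
    simp [h.ne] at this
  have h1 := D.w_nonneg h0 hne
  by_contra hc
  have h2 : F.c (D.w p) i = 0 := by omega
  have e := C.lev_zero_unique (D.fl_good i) (i := p) (D.w_mem p) h.mem
    (by rw [h.fl_cp, D.w_neg, h2]; omega) (by rw [h.y_fl_cp]; omega)
    (by rw [h.fl_lev, h0, h2]; rfl) h.y_fl_lev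
  have := h.y_lev
  rw [← e] at this
  omega

theorem APair.cost_le_one {y : N} {i p : ι} (h : D.APair y i p) (hlev : F.lev (D.w p) ≤ -1)
    (h1 : (D.NW (D.w p)).card = 1) : D.cost (D.w p) ≤ 1 := by
  by_cases hi : F.c (D.w p) i ≤ 0
  · obtain ⟨g, hg, hfl⟩ := C.flip _ (D.fl_good i) p
    have e : y = g.v p := C.eq_flip_of_lev_zero (D.fl_good i) hg hfl h.mem
      (by rw [h.y_fl_cp]; omega) h.y_fl_lev
    have hc : (D.fl i).c (D.w p) p < 0 := by rw [h.fl_cp, D.w_neg]; omega
    have hne : D.w p ≠ g.v p := by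
      rw [← e]
      intro e2
      have := D.w_neg p
      rw [e2, h.cy] at this
      simp [h.ne] at this
    have h4 := D.cc_le hg (D.w_mem p) (C.not_mem_flip (D.fl_good i) hfl hc hne) (fun j => by
      left
      intro s
      by_cases hj : j = p
      · rw [hj, ← e]
        exact D.Z_of_lev_zero (D.fl_good i) (D.fl_Z h.w_lev) h.mem h.y_fl_lev s
      · rw [hfl.v_ne j hj]; exact D.fl_Z h.w_lev s j)
    rw [hfl.lev_eq, ← e, h.y_fl_lev, h.fl_lev, h.fl_cp, D.w_neg] at h4
    unfold cost; omega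
  · obtain ⟨l, hlp, hl⟩ : ∃ l, l ≠ p ∧ F.c (D.w p) l < 0 := by
      by_contra hc
      push Not at hc
      have := eq_neg_single (D.w_neg p) hc hlev
      rw [this] at hi
      simp [h.ne.symm] at hi
    refine (D.cost_le_one (D.w_mem p) hl fun e => hlp ?_).1
    obtain ⟨a, ha⟩ := Finset.card_eq_one.1 h1
    have e1 := D.mem_NW.2 e.symm
    have e2 := D.mem_NW.2 (rfl : D.w p = D.w p)
    rw [ha, Finset.mem_singleton] at e1 e2
    rw [e1, e2]

theorem APair.card_In_le_one {y : N} {i p : ι} (h : D.APair y i p) (h0 : F.lev (D.w p) = 0)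
    (h2 : (D.NW (D.w p)).card = 2) : (D.In (D.w p)).card ≤ 1 := by
  set x := D.w p with hx
  have hxi := h.pos_of_lev_zero h0
  rw [← hx] at hxi
  have hpN : p ∈ D.NW x := D.mem_NW.2 rfl
  obtain ⟨q, hq, hN⟩ : ∃ q, q ≠ p ∧ D.NW x = {p, q} := by
    obtain ⟨a, b, hab, e⟩ := Finset.card_eq_two.1 h2
    rw [e, Finset.mem_insert, Finset.mem_singleton] at hpN
    rcases hpN with rfl | rfl
    · exact ⟨b, hab.symm, e⟩
    · exact ⟨a, hab, by rw [e, Finset.pair_comm]⟩
  have xp : F.c x p = -1 := D.neg_of_NW hpN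
  have xq : F.c x q = -1 := D.neg_of_NW (by rw [hN]; simp)
  have xo : ∀ l, l ≠ p → l ≠ q → 0 ≤ F.c x l := fun l h1 h2 =>
    D.nonneg_of_not_NW (D.w_mem p) h0 (by rw [hN]; simp [h1, h2])
  have hiq : i ≠ q := fun e => by rw [e, xq] at hxi; omega
  have hpi := h.ne
  obtain ⟨s, hsq, hs⟩ := eq_single_sub (g := F.c x + F.c (D.w i)) (i := q)
    (by rw [h.cw]; simp [xq, hq, hiq.symm])
    (fun l hl => by
      rw [h.cw]
      by_cases h1 : l = p
      · subst h1; simp [xp, hpi]
      · by_cases h3 : l = i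
        · subst h3; simp [h1]; omega
        · simpa [h1, h3] using xo l h1 hl)
    (by
      simp only [Pi.add_apply, Finset.sum_add_distrib]
      change F.lev x + F.lev (D.w i) = 0
      rw [h0, h.w_lev]; rfl)
  have noz : ∀ c d, c ∈ C.V → d ∈ C.V → F.c x + F.c (D.w i) = F.c c + F.c d → x ≠ c → x ≠ d →
      False := by
    intro c d hc hd e h1 h2
    rcases C.square D.hF (D.w_mem p) (D.w_mem i) hc hd e h1 h2 with h3 | ⟨z, hz, h3⟩
    · rw [hs] at h3
      have := congrFun h3 s
      simp [hsq] at this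
    · rw [hs] at h3
      have e1 : z = D.w q := D.eq_w hz (by rw [h3]; simp [hsq.symm])
        (by simp [Fac.lev, h3, Finset.sum_sub_distrib])
      have e2 : D.w q = x := D.mem_NW.1 (by rw [hN]; simp)
      rw [e1, e2] at h3
      have := congrFun h3 p
      rw [xp] at this
      simp only [Pi.sub_apply, Pi.single_apply, hq.symm, if_false] at this
      split_ifs at this <;> omega
  have xne : ∀ j, x ≠ F.v j := C.ne_v_of_neg D.hF (i := p) (by omega)
  have key : ∀ y' ∈ D.In x, F.c y' p < 0 ∧ F.c y' s < F.c x s := by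
    intro y' hy'
    have hy := D.mem_In.1 hy'
    have xy : x ≠ y' := fun e => hy.notW p e.symm
    constructor
    · by_contra hc
      have hneg : ∀ l, F.c y' l < 0 → l = q := fun l hl => by
        have := (hy.neg hl).2
        rw [hN, Finset.mem_insert, Finset.mem_singleton] at this
        rcases this with rfl | rfl
        · exact absurd hl hc
        · rfl
      obtain ⟨l, hl, -⟩ := hy.ex
      have e := eq_neg_single (g := F.c y') (i := q)
        (by have := hneg l hl; subst this; exact (hy.neg hl).1)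
        (fun l hl => by by_contra hc; exact hl (hneg l (by omega))) hy.y_lev
      exact noz (F.v s) y' (C.mem F D.hF s) hy.mem (by rw [hs, e, C.cv F D.hF]; abel) (xne s) xy
    · by_contra hc
      have hL : ∀ l, F.c y' l < F.c x l → l = i := fun l hl => by
        have h1 : l ∈ Pos F x := hy.LY_sub (by simpa [LY] using hl)
        simp only [Pos, mem_filter, mem_univ, true_and] at h1
        by_contra hli
        have hls : l ≠ s := fun e => hc (e ▸ hl)
        have h3 := congrFun hs l
        rw [h.cw] at h3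
        simp only [Pi.add_apply, Pi.sub_apply, Pi.single_apply, hli, hls, if_false] at h3
        split_ifs at h3 <;> omega
      have hex : F.c y' i < F.c x i := by
        by_contra hc2
        have : ∑ l, F.c x l ≤ ∑ l, F.c y' l := Finset.sum_le_sum fun l _ => by
          by_contra hc3
          have := hL l (by omega)
          subst this
          exact hc2 (by omega)
        change F.lev x ≤ F.lev y' at this
        have := hy.y_lev
        omega
      have e := eq_neg_single (g := F.c y' - F.c x) (i := i)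
        (by have := hy.LY_coord hex; simp only [Pi.sub_apply]; omega)
        (fun l hl => by
          by_contra hc3
          simp only [Pi.sub_apply] at hc3
          exact hl (hL l (by omega)))
        (by
          simp only [Pi.sub_apply, Finset.sum_sub_distrib]
          change F.lev y' - F.lev x ≤ -1
          have := hy.y_lev
          omega)
      rw [sub_eq_iff_eq_add] at e
      exact noz y' (F.v p) hy.mem (C.mem F D.hF p) (by rw [e, h.cw, C.cv F D.hF]; abel) xy (xne p)
  exact Finset.card_le_one.2 fun a ha b hb =>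
    (D.mem_In.1 ha).unique (D.mem_In.1 hb) (key a ha).1 (key b hb).1 (key a ha).2 (key b hb).2

end Chg

end Pool.Agent.P.MP_a05398_ag
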