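import Pool.Agent.P.MP_a05398_ag.Core2

set_option autoImplicit false
set_option linter.unusedSectionVars false

open Finset

namespace Pool.Agent.P.MP_a05398_ag

variable {N ι : Type} [AddCommGroup N] [Fintype ι] [DecidableEq ι]

/-- `e_p - e_i`, `e_i - e_p` and `-e_i` are vertices. -/
def Pent (C : Cfg N ι) (F : Fac N ι) (i p : ι) : Prop :=
  p ≠ i ∧ ∃ a ∈ C.V, ∃ b ∈ C.V, ∃ n ∈ C.V, F.c a = Pi.single p 1 - Pi.single i 1 ∧
    F.c b = Pi.single i 1 - Pi.single p 1 ∧ F.c n = -Pi.single i 1

namespace Chg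
variable {C : Cfg N ι} {F : Fac N ι} {σ : Type} [Fintype σ] (D : Chg C F σ)

open Classical in
noncomputable def AS (x : N) : Finset N := C.V.filter fun y => ∃ i p, D.APair y i p ∧ D.w p = x

theorem card_AS_le (x : N) : (D.AS x).card ≤ (D.NW x).card := by
  apply Finset.card_le_card_of_forall_subsingleton (fun y p => ∃ i, D.APair y i p)
  · intro y hy
    simp only [AS, mem_filter] at hy
    obtain ⟨-, i, p, h, hp⟩ := hy
    exact ⟨p, D.mem_NW.2 hp, i, h⟩
  · rintro p - y ⟨-, i, h⟩ y' ⟨-, i', h'⟩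
    exact h.unique h'

open Classical in
noncomputable def TS (x : N) : Finset N :=
  (if 2 ≤ (D.NW x).card then D.In x else ∅) ∪ D.AS x

theorem local_bound (PF : ∀ i p, ¬ Pent C F i p) (j : ι) :
    D.cost (D.w j) + (D.TS (D.w j)).card ≤ 3 * (D.NW (D.w j)).card := by
  classical
  set x := D.w j with hx
  have hc3 : D.cost x ≤ 3 := D.cost_le_three (D.w_mem j)
    (C.ne_v_of_neg D.hF (i := j) (by rw [D.w_neg]; omega))
  have hm : 1 ≤ (D.NW x).card := Finset.card_pos.2 ⟨j, D.mem_NW.2 rfl⟩
  have hA := D.card_AS_le x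
  have hI := D.card_In_le x
  have hT : (D.TS x).card ≤ (if 2 ≤ (D.NW x).card then D.In x else ∅).card + (D.AS x).card := by
    unfold TS
    convert Finset.card_union_le _ _
  have hlev := D.w_lev j
  rw [← hx] at hlev
  rcases (D.AS x).eq_empty_or_nonempty with hAe | ⟨y, hy⟩
  · rw [hAe, Finset.card_empty] at hT
    split_ifs at hT with h2
    · omega
    · rw [Finset.card_empty] at hT; omega
  simp only [AS, mem_filter] at hy
  obtain ⟨-, i, p, h, hp⟩ := hy
  by_cases h0 : F.lev x = 0
  · have h2 : 2 ≤ (D.NW x).card := by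
      by_contra hc
      obtain ⟨a, ha⟩ := Finset.card_eq_one.1 (show (D.NW x).card = 1 by omega)
      have hpa : p = a := by
        have := D.mem_NW.2 hp
        rwa [ha, Finset.mem_singleton] at this
      subst hpa
      obtain ⟨q, hq, e⟩ := eq_single_sub (g := F.c x) (i := p) (by rw [← hp, D.w_neg])
        (fun l hl => D.nonneg_of_not_NW (D.w_mem j) h0 (by rw [ha]; simpa using hl)) h0
      have h1 := h.pos_of_lev_zero (by rw [hp]; exact h0)
      rw [hp, e] at h1
      have hqi : q = i := by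
        by_contra hc2
        have : i ≠ q := fun e => hc2 e.symm
        simp [this, h.ne.symm] at h1
      subst hqi
      exact PF q p ⟨h.ne, _, D.w_mem q, x, D.w_mem j, y, h.mem, h.cw, e, h.cy⟩
    rw [if_pos h2] at hT
    by_cases h3 : (D.NW x).card = 2
    · have := h.card_In_le_one (by rw [hp]; exact h0) (by rw [hp]; exact h3)
      rw [hp] at this
      omega
    · omega
  · have hIn : D.In x = ∅ := by
      rw [Finset.eq_empty_iff_forall_notMem]
      intro y' hy'
      exact h0 (D.mem_In.1 hy').x_lev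
    rw [hIn, ite_self, Finset.card_empty] at hT
    by_cases h1 : (D.NW x).card = 1
    · have := h.cost_le_one (by rw [hp]; omega) (by rw [hp]; exact h1)
      rw [hp] at this
      omega
    · omega

include D in
theorem core (hspec : 0 ≤ ∑ x ∈ C.V, F.lev x) (PF : ∀ i p, ¬ Pent C F i p) :
    3 * C.V.card + Fintype.card σ ≤ 8 * Fintype.card ι := by
  classical
  set Fv : Finset N := univ.image F.v with hFv
  have hFc : Fv.card = Fintype.card ι := by
    rw [hFv, Finset.card_image_of_injective _ (fun i j h => C.v_inj D.hF (by rw [h])),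
      Finset.card_univ]
  have hFs : Fv ⊆ C.V := by
    intro x hx
    obtain ⟨i, -, rfl⟩ := Finset.mem_image.1 hx
    exact C.mem F D.hF i
  set U := C.V \ Fv with hU
  have memU : ∀ x, x ∈ U ↔ x ∈ C.V ∧ ∀ i, x ≠ F.v i := by
    intro x
    simp only [hU, hFv, mem_sdiff, mem_image, mem_univ, true_and, not_exists, ne_eq, eq_comm]
  have hcard : U.card + Fintype.card ι = C.V.card := by
    rw [← hFc]; exact Finset.card_sdiff_add_card_eq_card hFs
  have hlev : ∑ x ∈ U, F.lev x + Fintype.card ι = ∑ x ∈ C.V, F.lev x := by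
    rw [← Finset.sum_sdiff hFs, ← hFc]
    congr 1
    rw [Finset.sum_congr rfl (g := fun _ => 1)]
    · simp
    · intro x hx
      obtain ⟨i, -, rfl⟩ := Finset.mem_image.1 hx
      exact C.lev_v D.hF i
  have hcc : Fintype.card σ = ∑ y ∈ U, D.cc y := by
    rw [← Finset.card_univ]
    unfold cc
    convert Finset.card_eq_sum_card_fiberwise (f := D.sel) (s := univ) (t := U) ?_
    intro s _
    obtain ⟨h1, h2, -⟩ := (D.exists_sel s).choose_spec
    refine (memU _).2 ⟨h1, fun i e => h2 ?_⟩
    change D.sel s ∈ _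
    rw [e]; exact D.ZF s i
  set W : Finset N := univ.image D.w with hW
  have hWs : W ⊆ U := by
    intro x hx
    obtain ⟨i, -, rfl⟩ := Finset.mem_image.1 hx
    exact (memU _).2 ⟨D.w_mem i, C.ne_v_of_neg D.hF (i := i) (by rw [D.w_neg]; omega)⟩
  have hNW : Fintype.card ι = ∑ x ∈ W, (D.NW x).card := by
    rw [← Finset.card_univ]
    unfold NW
    convert Finset.card_eq_sum_card_fiberwise (f := D.w) (s := univ) (t := W) ?_
    intro i _
    exact Finset.mem_image_of_mem _ (Finset.mem_univ i)
  have hrest : ∑ y ∈ U \ W, D.cost y ≤ ((W.biUnion D.TS).card : ℤ) := by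
    have h1 : ∑ y ∈ U \ W, D.cost y
        ≤ ∑ y ∈ U \ W, (if y ∈ W.biUnion D.TS then (1 : ℤ) else 0) := by
      apply Finset.sum_le_sum
      intro y hy
      rw [Finset.mem_sdiff, memU] at hy
      obtain ⟨⟨hyV, hyF⟩, hyW⟩ := hy
      have notW : ∀ l, y ≠ D.w l := fun l e => hyW (e ▸ Finset.mem_image_of_mem _ (mem_univ l))
      by_cases hpos : 0 < D.cost y
      · obtain ⟨i, hi⟩ : ∃ i, F.c y i < 0 := by
          by_contra hc
          push Not at hc
          have := Cfg.lev_pos_of_nonneg hc (C.nz F D.hF y hyV)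
          have := C.lev_le F D.hF y hyV hyF
          omega
        have hin : D.Inner y (D.w i) := ⟨hyV, notW, hpos, i, hi, rfl⟩
        rw [if_pos]
        · exact (D.cost_le_one hyV hi (notW i)).1
        · rw [Finset.mem_biUnion]
          by_cases h2 : 2 ≤ (D.NW (D.w i)).card
          · refine ⟨D.w i, Finset.mem_image_of_mem _ (mem_univ i), ?_⟩
            simp only [TS, if_pos h2, mem_union]
            exact Or.inl (D.mem_In.2 hin)
          · have : 1 ≤ (D.NW (D.w i)).card := Finset.card_pos.2 ⟨i, D.mem_NW.2 rfl⟩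
            obtain ⟨i', p, hp⟩ := hin.apair (by omega)
            refine ⟨D.w p, Finset.mem_image_of_mem _ (mem_univ p), ?_⟩
            simp only [TS, AS, mem_union, mem_filter]
            exact Or.inr ⟨hyV, i', p, hp, rfl⟩
      · split_ifs <;> omega
    refine le_trans h1 ?_
    rw [Finset.sum_boole]
    exact Int.ofNat_le.2 (Finset.card_le_card fun y hy => (Finset.mem_filter.1 hy).2)
  have hbi : (W.biUnion D.TS).card ≤ ∑ x ∈ W, (D.TS x).card := Finset.card_biUnion_le
  have hloc : ∑ x ∈ W, (D.cost x + (D.TS x).card) ≤ ∑ x ∈ W, (3 * (D.NW x).card : ℤ) := by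
    apply Finset.sum_le_sum
    intro x hx
    obtain ⟨i, -, rfl⟩ := Finset.mem_image.1 hx
    exact D.local_bound PF i
  have hsplit : ∑ y ∈ U \ W, D.cost y + ∑ y ∈ W, D.cost y = ∑ y ∈ U, D.cost y :=
    Finset.sum_sdiff hWs
  have hcost : ∑ y ∈ U, D.cost y = 3 * U.card + Fintype.card σ + 2 * ∑ y ∈ U, F.lev y := by
    unfold cost
    rw [Finset.sum_add_distrib, Finset.sum_add_distrib, ← Finset.mul_sum, hcc]
    simp [mul_comm]
  rw [Finset.sum_add_distrib, ← Finset.mul_sum, ← Nat.cast_sum, ← Nat.cast_sum, ← hNW] at hloc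
  omega

end Chg

end Pool.Agent.P.MP_a05398_ag
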