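import Pool.Agent.P.MP_a05398_ag.Geom

set_option autoImplicit false
set_option linter.unusedSectionVars false
set_option linter.unusedSimpArgs false

open Finset

namespace Pool.Agent.P.MP_a05398_ag

theorem Split.unique {N ι : Type} [AddCommGroup N] [Fintype ι] [DecidableEq ι] {C : Cfg N ι}
    {F : Fac N ι} (hF : C.good F) {i p q : ι} (h : Split C F i p) (h' : Split C F i q) :
    p = q := by
  obtain ⟨⟨hp, a, ha, -, -, -, -, ca, -, -⟩, -⟩ := h
  obtain ⟨⟨hq, a', ha', -, -, -, -, ca', -, -⟩, -⟩ := h'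
  have e := C.lev_zero_unique hF (i := i) ha ha' (by simp [ca, hp.symm]) (by simp [ca', hq.symm])
    (by simp [Fac.lev, ca, Finset.sum_sub_distrib]) (by simp [Fac.lev, ca', Finset.sum_sub_distrib])
  rw [e, ca', sub_left_inj] at ca
  have := congrFun ca p
  by_contra hne
  simp [hne] at this

theorem exists_pairs {N : Type} [AddCommGroup N] {d : ℕ} {C : Cfg N (Fin d)} {F : Fac N (Fin d)}
    (hF : C.good F) : ∃ (m : ℕ) (h : Fin m × Bool → Fin d), Function.Injective h ∧
      (splitSet C F).card ≤ 2 * m ∧ (∀ j, Split C F (h (j, false)) (h (j, true))) := by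
  classical
  let φ : Fin d → Fin d := fun i => if h : ∃ p, Split C F i p then h.choose else i
  have hφ : ∀ i ∈ splitSet C F, Split C F i (φ i) := by
    intro i hi
    have h := mem_splitSet.1 hi
    simp only [φ, dif_pos h]
    exact h.choose_spec
  have hmem : ∀ i ∈ splitSet C F, φ i ∈ splitSet C F := fun i hi =>
    mem_splitSet.2 ⟨i, (hφ i hi).symm⟩
  have hinv : ∀ i ∈ splitSet C F, φ (φ i) = i := fun i hi =>
    (hφ _ (hmem i hi)).unique hF (hφ i hi).symm
  set T := (splitSet C F).filter fun i => i < φ i with hT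
  let e : Fin T.card → Fin d := fun j => (T.equivFin.symm j).1
  have he : ∀ j, e j ∈ splitSet C F ∧ e j < φ (e j) := fun j =>
    Finset.mem_filter.1 (T.equivFin.symm j).2
  have einj : Function.Injective e := fun a b h => T.equivFin.symm.injective (Subtype.ext h)
  refine ⟨T.card, fun x => if x.2 then φ (e x.1) else e x.1, ?_, ?_, fun j => hφ _ (he j).1⟩
  · rintro ⟨a, s⟩ ⟨b, t⟩ h
    have ha := he a
    have hb := he b
    cases s <;> cases t <;> simp only [Bool.false_eq_true, if_true, if_false] at h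
    · rw [einj h]
    · exfalso
      have := ha.2
      rw [h, hinv _ hb.1] at this
      exact lt_asymm this hb.2
    · exfalso
      have := hb.2
      rw [← h, hinv _ ha.1] at this
      exact lt_asymm this ha.2
    · have := congrArg φ h
      rw [hinv _ ha.1, hinv _ hb.1] at this
      rw [einj this]
  · have : splitSet C F ⊆ T ∪ T.image φ := by
      intro i hi
      rw [Finset.mem_union]
      rcases lt_trichotomy i (φ i) with h | h | h
      · exact Or.inl (Finset.mem_filter.2 ⟨hi, h⟩)
      · exact absurd h.symm (hφ i hi).1.1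
      · exact Or.inr (Finset.mem_image.2 ⟨φ i, Finset.mem_filter.2
          ⟨hmem i hi, by rwa [hinv i hi]⟩, hinv i hi⟩)
    have h1 := Finset.card_le_card this
    have h2 := Finset.card_union_le T (T.image φ)
    have h3 : (T.image φ).card ≤ T.card := Finset.card_image_le
    omega

theorem final {d : ℕ} {V : Finset (Fin d → ℤ)} (H : Fano V)
    (hk : 3 * (3 * (d : ℤ) - (V.card : ℤ)) < (d : ℤ)) :
    ∃ m : ℕ, 1 ≤ m ∧ 2 * m ≤ d ∧
      (d : ℤ) - 2 * (m : ℤ) ≤ 3 * (3 * (d : ℤ) - (V.card : ℤ)) ∧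
      ∃ g : (Fin d → ℤ) ≃ₗ[ℤ] (Fin d → ℤ),
        (∀ v ∈ V, (∀ i : Fin d, (i : ℕ) < 2 * m → g v i = 0) ∨
          ∃ j : ℕ, j < m ∧ ∃ a b : ℤ,
            (a, b) ∈ ({(1, 0), (0, 1), (-1, 0), (0, -1), (1, 1), (-1, -1)} : Finset (ℤ × ℤ)) ∧
            ∀ i : Fin d, g v i =
              if (i : ℕ) = 2 * j then a else if (i : ℕ) = 2 * j + 1 then b else 0) ∧
        (∀ j : ℕ, j < m → ∀ a b : ℤ,
          (a, b) ∈ ({(1, 0), (0, 1), (-1, 0), (0, -1), (1, 1), (-1, -1)} : Finset (ℤ × ℤ)) →
          ∃ v ∈ V, ∀ i : Fin d, g v i =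
            if (i : ℕ) = 2 * j then a else if (i : ℕ) = 2 * j + 1 then b else 0) := by
  obtain ⟨F0, h0⟩ := H.exists_good
  obtain ⟨F, hF, hineq⟩ := main_ineq H.cfg (F0 := F0) h0
  obtain ⟨m, h, hinj, hcard, hsp⟩ := exists_pairs hF
  have hG : Fano.Good V F := hF
  have hmd : 2 * m ≤ d := by
    have := Fintype.card_le_of_injective h hinj
    simp only [Fintype.card_prod, Fintype.card_fin, Fintype.card_bool] at this
    omega
  rw [Fintype.card_fin] at hineq
  change 3 * V.card ≤ _ at hineq
  refine ⟨m, by omega, hmd, by omega, ?_⟩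
  let k : Fin m × Bool → Fin d := fun x =>
    ⟨2 * x.1 + (if x.2 then 1 else 0), by have := x.1.2; split_ifs <;> omega⟩
  have kinj : Function.Injective k := by
    rintro ⟨a, s⟩ ⟨b, t⟩ e
    have := congrArg Fin.val e
    cases s <;> cases t <;> simp only [k, Bool.false_eq_true, if_true, if_false] at this
    · rw [Fin.ext (show (a : ℕ) = b by omega)]
    · omega
    · omega
    · rw [Fin.ext (show (a : ℕ) = b by omega)]
  obtain ⟨τ, hτ⟩ := Equiv.Perm.exists_extending_pair k h kinj hinj
  let sg : Fin d → ℤ := fun i => if (i : ℕ) % 2 = 1 then -1 else 1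
  have sg2 : ∀ i, sg i * sg i = 1 := fun i => by simp only [sg]; split_ifs <;> norm_num
  let G : (Fin d → ℤ) →+ (Fin d → ℤ) :=
    { toFun := fun x i => sg i * F.c x (τ i)
      map_zero' := by funext i; simp
      map_add' := fun x y => by funext i; simp [mul_add] }
  have Gbij : Function.Bijective G.toIntLinearMap := by
    constructor
    · intro x y e
      apply hG.inj
      funext j
      have := congrFun e (τ.symm j)
      change sg _ * F.c x (τ _) = sg _ * F.c y (τ _) at this
      rw [Equiv.apply_symm_apply] at this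
      have h2 := congrArg (sg (τ.symm j) * ·) this
      simp only [← mul_assoc, sg2, one_mul] at h2
      exact h2
    · intro y
      refine ⟨∑ j, (sg (τ.symm j) * y (τ.symm j)) • F.v j, funext fun i => ?_⟩
      change sg i * F.c _ (τ i) = _
      rw [map_sum, Finset.sum_apply]
      simp only [map_zsmul, hG.cv, Pi.smul_apply, Pi.single_apply, smul_eq_mul, mul_ite, mul_one,
        mul_zero, sum_ite_eq, mem_univ, if_true, Equiv.symm_apply_apply, ← mul_assoc, sg2, one_mul]
  have key : ∀ (j : Fin m) (x : Fin d → ℤ), Pl F (h (j, false)) (h (j, true)) x → ∀ i : Fin d,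
      G x i = if (i : ℕ) = 2 * j then F.c x (h (j, false))
        else if (i : ℕ) = 2 * j + 1 then -F.c x (h (j, true)) else 0 := by
    intro j x hx i
    change sg i * F.c x (τ i) = _
    split_ifs with h1 h2
    · have : i = k (j, false) := Fin.ext (by simp [k, h1])
      rw [← hτ, ← this]
      simp only [sg]
      rw [if_neg (by omega), one_mul]
    · have : i = k (j, true) := Fin.ext (by simp [k, h2])
      rw [← hτ, ← this]
      simp only [sg]
      rw [if_pos (by omega), neg_one_mul]
    · rw [hx, mul_zero]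
      · rw [← hτ]
        intro e
        apply h1
        rw [τ.injective e]; simp [k]
      · rw [← hτ]
        intro e
        apply h2
        rw [τ.injective e]; simp [k]
  refine ⟨LinearEquiv.ofBijective G.toIntLinearMap Gbij, fun v hv => ?_, fun j hj a b hab => ?_⟩
  · by_cases hz : ∀ j, F.c v (h (j, false)) = 0 ∧ F.c v (h (j, true)) = 0
    · left
      intro i hi
      change sg i * F.c v (τ i) = 0
      rcases Nat.even_or_odd' (i : ℕ) with ⟨j, hj | hj⟩
      · have : i = k (⟨j, by omega⟩, false) := Fin.ext (by simp [k, hj])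
        rw [this, hτ, (hz _).1, mul_zero]
      · have : i = k (⟨j, by omega⟩, true) := Fin.ext (by simp [k, hj])
        rw [this, hτ, (hz _).2, mul_zero]
    · right
      obtain ⟨j, hj⟩ := not_forall.1 hz
      have hpl := ((hsp j).2.2 v hv).resolve_left hj
      obtain ⟨P⟩ := (hsp j).1.nonempty hF
      refine ⟨j, j.2, F.c v (h (j, false)), -F.c v (h (j, true)), ?_, key j v hpl⟩
      have hne := P.ne
      rcases P.planar hv hpl with e | e | e | e | e | e
      · rw [e, hG.cv]; simp [hne]
      · rw [e, hG.cv]; simp [hne.symm]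
      · rw [e, P.ca]; simp [hne, hne.symm]
      · rw [e, P.cb]; simp [hne, hne.symm]
      · rw [e, P.cn]; simp [hne, hne.symm]
      · rw [e]; simp [hne, hne.symm]
  · obtain ⟨P⟩ := (hsp ⟨j, hj⟩).1.nonempty hF
    obtain ⟨w, hw, cw⟩ := (hsp ⟨j, hj⟩).2.1
    have hne := P.ne
    have fin : ∀ x ∈ V, Pl F (h (⟨j, hj⟩, false)) (h (⟨j, hj⟩, true)) x →
        F.c x (h (⟨j, hj⟩, false)) = a → -F.c x (h (⟨j, hj⟩, true)) = b →
        ∃ v ∈ V, ∀ i : Fin d, LinearEquiv.ofBijective G.toIntLinearMap Gbij v i =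
          if (i : ℕ) = 2 * j then a else if (i : ℕ) = 2 * j + 1 then b else 0 := by
      intro x hx hpl e1 e2
      refine ⟨x, hx, fun i => ?_⟩
      rw [← e1, ← e2]
      exact key ⟨j, hj⟩ x hpl i
    simp only [mem_insert, mem_singleton, Prod.mk.injEq] at hab
    rcases hab with ⟨rfl, rfl⟩ | ⟨rfl, rfl⟩ | ⟨rfl, rfl⟩ | ⟨rfl, rfl⟩ | ⟨rfl, rfl⟩ | ⟨rfl, rfl⟩
    · exact fin _ (hG.mem _) P.pl_vi (by simp [hG.cv]) (by simp [hG.cv, hne])
    · exact fin w hw (fun l _ h2 => by simp [cw, h2]) (by simp [cw, hne.symm]) (by simp [cw])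
    · exact fin _ P.hn P.pl_n (by simp [P.cn]) (by simp [P.cn, hne])
    · exact fin _ (hG.mem _) P.pl_vp (by simp [hG.cv, hne.symm]) (by simp [hG.cv])
    · exact fin _ P.hb P.pl_b (by simp [P.cb, hne.symm]) (by simp [P.cb, hne])
    · exact fin _ P.ha P.pl_a (by simp [P.ca, hne.symm]) (by simp [P.ca, hne])

end Pool.Agent.P.MP_a05398_ag
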