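import Pool.Agent.P.MP_a05398_ag.Contract2

set_option autoImplicit false
set_option linter.unusedSectionVars false
set_option linter.unusedSimpArgs false

open Finset

namespace Pool.Agent.P.MP_a05398_ag

variable {d : ℕ}

theorem expand (φ : (Fin d → ℤ) →+ ℝ) (x : Fin d → ℤ) :
    ∑ k, φ (Pi.single k 1) * (x k : ℝ) = φ x := by
  conv_rhs => rw [pi_eq_sum_univ' x]
  rw [map_sum]
  refine Finset.sum_congr rfl fun k _ => ?_
  rw [map_zsmul, zsmul_eq_mul, mul_comm]

theorem exists_pos_of_interior (V : Finset (Fin d → ℤ))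
    (h : (0 : Fin d → ℝ) ∈ interior (convexHull ℝ
      ((fun (v : Fin d → ℤ) (i : Fin d) => (v i : ℝ)) '' (V : Set (Fin d → ℤ)))))
    (u : Fin d → ℝ) (hu : u ≠ 0) : ∃ v ∈ V, 0 < ∑ k, u k * (v k : ℝ) := by
  by_contra hc
  push Not at hc
  let L : (Fin d → ℝ) →ₗ[ℝ] ℝ :=
    { toFun := fun y => ∑ k, u k * y k
      map_add' := fun y z => by simp [mul_add, Finset.sum_add_distrib]
      map_smul' := fun c y => by simp [Finset.mul_sum, mul_left_comm] }
  have hsub : convexHull ℝ ((fun (v : Fin d → ℤ) (i : Fin d) => (v i : ℝ)) ''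
      (V : Set (Fin d → ℤ))) ⊆ {y | L y ≤ 0} := by
    apply convexHull_min
    · rintro _ ⟨v, hv, rfl⟩
      exact hc v hv
    · exact convex_halfSpace_le L.isLinear 0
  have hn := mem_interior_iff_mem_nhds.1 (interior_mono hsub h)
  have hcont : Filter.Tendsto (fun t : ℝ => t • u) (nhds 0) (nhds 0) := by
    have : Continuous fun t : ℝ => t • u := by fun_prop
    simpa using this.tendsto 0
  have h2 : ∀ᶠ t : ℝ in nhdsWithin 0 (Set.Ioi 0), t • u ∈ {y | L y ≤ 0} :=
    nhdsWithin_le_nhds (hcont hn)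
  obtain ⟨t, h3, ht⟩ := (h2.and self_mem_nhdsWithin).exists
  have h4 : 0 < L u := by
    obtain ⟨k, hk⟩ := Function.ne_iff.1 hu
    exact Finset.sum_pos' (fun j _ => mul_self_nonneg _) ⟨k, mem_univ k, mul_self_pos.2 hk⟩
  have h5 : L (t • u) ≤ 0 := h3
  rw [map_smul, smul_eq_mul] at h5
  exact absurd (mul_pos ht h4) (not_lt.2 h5)

structure Fano (V : Finset (Fin d → ℤ)) : Prop where
  pos : ∀ φ : (Fin d → ℤ) →+ ℝ, (∃ x, φ x ≠ 0) → ∃ v ∈ V, 0 < φ v
  fac : ∀ u : (Fin d → ℤ) →+ ℝ, (∀ v ∈ V, u v ≤ 1) →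
    ∃ b : Module.Basis (Fin d) ℤ (Fin d → ℤ), ∀ v ∈ V, u v = 1 → v ∈ Set.range b
  zero : (0 : Fin d → ℤ) ∉ V

theorem fano_of (V : Finset (Fin d → ℤ)) (hd : 0 < d)
    (h1 : (0 : Fin d → ℝ) ∈ interior (convexHull ℝ
      ((fun (v : Fin d → ℤ) (i : Fin d) => (v i : ℝ)) '' (V : Set (Fin d → ℤ)))))
    (h2 : ∀ v ∈ V, (fun i : Fin d => (v i : ℝ)) ∉ convexHull ℝ
      ((fun (w : Fin d → ℤ) (i : Fin d) => (w i : ℝ)) ''
        ((V.erase v : Finset (Fin d → ℤ)) : Set (Fin d → ℤ))))
    (h3 : ∀ u : Fin d → ℝ, (∀ v ∈ V, ∑ i, u i * (v i : ℝ) ≤ 1) →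
      ∃ b : Module.Basis (Fin d) ℤ (Fin d → ℤ),
        ∀ v ∈ V, ∑ i, u i * (v i : ℝ) = 1 → v ∈ Set.range b) : Fano V := by
  refine ⟨fun φ ⟨x, hx⟩ => ?_, fun u hu => ?_, fun h0 => ?_⟩
  · obtain ⟨v, hv, h⟩ := exists_pos_of_interior V h1 (fun k => φ (Pi.single k 1)) (by
      intro h
      apply hx
      rw [← expand]
      exact Finset.sum_eq_zero fun k _ => by rw [congrFun h k]; simp)
    exact ⟨v, hv, by rwa [expand] at h⟩
  · obtain ⟨b, hb⟩ := h3 (fun k => u (Pi.single k 1)) (fun v hv => by rw [expand]; exact hu v hv)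
    exact ⟨b, fun v hv h => hb v hv (by rw [expand]; exact h)⟩
  · obtain ⟨f, c, hf1, hf2⟩ := geometric_hahn_banach_point_closed (convex_convexHull ℝ _)
      (Set.Finite.isClosed_convexHull ℝ (Set.toFinite _)) (h2 0 h0)
    have e0 : (fun i : Fin d => (((0 : Fin d → ℤ) i : ℤ) : ℝ)) = 0 := by funext i; simp
    rw [e0, map_zero] at hf1
    have key : ∀ y : Fin d → ℝ, ∑ k, (-f (Pi.single k 1)) * y k = -f y := by
      intro y
      conv_rhs => rw [pi_eq_sum_univ' y]
      rw [map_sum, ← Finset.sum_neg_distrib]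
      refine Finset.sum_congr rfl fun k _ => ?_
      rw [map_smul, smul_eq_mul]; ring
    have hpos : ∀ v ∈ V, v ≠ 0 → 0 < f (fun i => (v i : ℝ)) := fun v hv hne =>
      hf1.trans (hf2 _ (subset_convexHull ℝ _ ⟨v, by simp [hv, hne], rfl⟩))
    obtain ⟨v, hv, h⟩ := exists_pos_of_interior V h1 (Pi.single ⟨0, hd⟩ 1) (by simp)
    have hv0 : v ≠ 0 := by
      rintro rfl
      simp at h
    obtain ⟨w, hw, h'⟩ := exists_pos_of_interior V h1 (fun k => -f (Pi.single k 1)) (by
      intro h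
      have := key (fun i => (v i : ℝ))
      rw [Finset.sum_eq_zero fun k _ => by rw [congrFun h k]; simp] at this
      have := hpos v hv hv0
      linarith)
    rw [key (fun i => (w i : ℝ))] at h'
    by_cases hw0 : w = 0
    · rw [hw0, e0, map_zero] at h'
      simp at h'
    · have := hpos w hw hw0
      linarith

namespace Fano
variable {V : Finset (Fin d → ℤ)} (H : Fano V)

include H in
theorem move (u φ : (Fin d → ℤ) →+ ℝ) (hu : ∀ v ∈ V, u v ≤ 1) (hφ : ∃ x, φ x ≠ 0) :
    ∃ θ : ℝ, ∃ w ∈ V, 0 < φ w ∧ (∀ v ∈ V, u v + θ * φ v ≤ 1) ∧ u w + θ * φ w = 1 := by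
  classical
  obtain ⟨w, hw, hmin⟩ := Finset.exists_min_image (V.filter fun v => 0 < φ v)
    (fun v => (1 - u v) / φ v) (by
      obtain ⟨v, h1, h2⟩ := H.pos φ hφ
      exact ⟨v, by simp [h1, h2]⟩)
  rw [Finset.mem_filter] at hw
  have h0 : 0 ≤ (1 - u w) / φ w := div_nonneg (by linarith [hu w hw.1]) hw.2.le
  refine ⟨(1 - u w) / φ w, w, hw.1, hw.2, fun v hv => ?_, by rw [div_mul_cancel₀ _ hw.2.ne']; ring⟩
  by_cases h : 0 < φ v
  · have := hmin v (by simp [hv, h])
    rw [le_div_iff₀ h] at this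
    linarith
  · have := mul_nonpos_of_nonneg_of_nonpos h0 (not_lt.1 h)
    linarith [hu v hv]

structure Good (V : Finset (Fin d → ℤ)) (f : Fac (Fin d → ℤ) (Fin d)) : Prop where
  mem : ∀ i, f.v i ∈ V
  cv : ∀ i, f.c (f.v i) = Pi.single i 1
  inj : Function.Injective f.c
  lev_le : ∀ x ∈ V, (∀ i, x ≠ f.v i) → f.lev x ≤ 0

theorem Good.repr {f : Fac (Fin d → ℤ) (Fin d)} (hf : Good V f) (x : Fin d → ℤ) :
    x = ∑ j, f.c x j • f.v j := by
  apply hf.inj
  rw [map_sum]
  simp only [map_zsmul, hf.cv]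
  exact pi_eq_sum_univ' _

theorem range_of_inj {g : Fin d → (Fin d → ℤ)} (hg : Function.Injective g)
    (b : Module.Basis (Fin d) ℤ (Fin d → ℤ)) (h : ∀ j, g j ∈ Set.range b) (k : Fin d) :
    ∃ j, b k = g j := by
  choose τ hτ using h
  have : Function.Injective τ := fun a c e => hg (by rw [← hτ, ← hτ, e])
  obtain ⟨j, hj⟩ := Finite.surjective_of_injective this k
  exact ⟨j, by rw [← hj, hτ]⟩

/-- real valued level and coordinate functions -/
noncomputable def coR (f : Fac (Fin d → ℤ) (Fin d)) (i : Fin d) : (Fin d → ℤ) →+ ℝ where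
  toFun x := (f.c x i : ℝ)
  map_zero' := by simp
  map_add' x y := by simp

noncomputable def levR (f : Fac (Fin d → ℤ) (Fin d)) : (Fin d → ℤ) →+ ℝ where
  toFun x := (f.lev x : ℝ)
  map_zero' := by simp [Fac.lev]
  map_add' x y := by simp [Fac.lev_add]

def flipC (f : Fac (Fin d → ℤ) (Fin d)) (i : Fin d) (w : Fin d → ℤ) :
    (Fin d → ℤ) →+ (Fin d → ℤ) where
  toFun x := fun j => if j = i then -f.c x i else f.c x j + f.c x i * f.c w j
  map_zero' := by funext j; simp
  map_add' x y := by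
    funext j
    simp only [map_add, Pi.add_apply]
    split_ifs <;> ring

include H in
theorem flip {f : Fac (Fin d → ℤ) (Fin d)} (hf : Good V f) (i : Fin d) :
    ∃ f', Good V f' ∧ IsFlip f f' i := by
  have levv : ∀ j, f.lev (f.v j) = 1 := fun j => by simp [Fac.lev, hf.cv]
  obtain ⟨θ, w, hw, hpos, hfeas, htight⟩ := H.move (levR f) (-coR f i) (fun v hv => by
    change (f.lev v : ℝ) ≤ 1
    by_cases h : ∃ j, v = f.v j
    · obtain ⟨j, rfl⟩ := h
      rw [levv]; simp
    · push Not at h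
      have := hf.lev_le v hv h
      exact_mod_cast (by omega : f.lev v ≤ 1)) ⟨f.v i, by simp [coR, hf.cv]⟩
  have hwi : f.c w i < 0 := by
    change (0 : ℝ) < -(f.c w i : ℝ) at hpos
    exact_mod_cast (by linarith : (f.c w i : ℝ) < 0)
  obtain ⟨b, hb⟩ := H.fac (levR f + θ • (-coR f i)) (fun v hv => by simpa using hfeas v hv)
  set v' : Fin d → (Fin d → ℤ) := Function.update f.v i w with hv'
  have v'i : v' i = w := by simp [hv']
  have v'j : ∀ j, j ≠ i → v' j = f.v j := fun j hj => by simp [hv', hj]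
  have hwne : ∀ j, w ≠ f.v j := by
    intro j e
    rw [e, hf.cv, Pi.single_apply] at hwi
    split_ifs at hwi <;> omega
  have vinj : Function.Injective f.v := by
    intro a c e
    have := congrFun (congrArg f.c e) a
    rw [hf.cv, hf.cv] at this
    by_contra hne
    simp [hne] at this
  have v'inj : Function.Injective v' := by
    intro a c e
    by_cases ha : a = i <;> by_cases hc : c = i
    · rw [ha, hc]
    · rw [ha, v'i, v'j c hc] at e; exact absurd e (hwne c)
    · rw [hc, v'i, v'j a ha] at e; exact absurd e.symm (hwne a)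
    · rw [v'j a ha, v'j c hc] at e; exact vinj e
  have v'mem : ∀ j, v' j ∈ V := fun j => by
    by_cases hj : j = i
    · rw [hj, v'i]; exact hw
    · rw [v'j j hj]; exact hf.mem j
  have hr := range_of_inj v'inj b (fun j => hb _ (v'mem j) (by
    by_cases hj : j = i
    · rw [hj, v'i]; simpa using htight
    · rw [v'j j hj]
      simp [levR, coR, levv, hf.cv, Pi.single_apply, Ne.symm hj]))
  have hw1 : f.c w i = -1 := by
    have hdvd : ∀ k, f.c w i ∣ f.c (b k) i := by
      intro k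
      obtain ⟨j, hj⟩ := hr k
      rw [hj]
      by_cases hji : j = i
      · rw [hji, v'i]
      · rw [v'j j hji, hf.cv]; simp [Ne.symm hji]
    have h1 : f.c w i ∣ f.c (f.v i) i := by
      rw [← b.sum_repr (f.v i), map_sum, Finset.sum_apply]
      refine Finset.dvd_sum fun k _ => ?_
      rw [map_zsmul, Pi.smul_apply, smul_eq_mul]
      exact Dvd.dvd.mul_left (hdvd k) _
    rw [hf.cv, Pi.single_eq_same] at h1
    rcases Int.isUnit_iff.1 (isUnit_of_dvd_one h1) with h | h <;> omega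
  let f' : Fac (Fin d → ℤ) (Fin d) := ⟨v', flipC f i w⟩
  have hflip : IsFlip f f' i :=
    ⟨v'j, by change f.c (v' i) i = -1; rw [v'i, hw1], fun x => by simp [f', flipC],
      fun x j hj => by simp [f', flipC, hj, v'i]⟩
  refine ⟨f', ⟨v'mem, fun j => ?_, ?_, fun x hx hn => ?_⟩, hflip⟩
  · funext k
    change flipC f i w (v' j) k = _
    by_cases hj : j = i
    · rw [hj, v'i]
      by_cases hk : k = i
      · simp [flipC, hk, hw1]
      · simp [flipC, hk, hw1]
    · rw [v'j j hj]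
      by_cases hk : k = i
      · simp [flipC, hk, hf.cv, Ne.symm hj]
      · simp [flipC, hk, hf.cv, Ne.symm hj]
  · rw [injective_iff_map_eq_zero]
    intro x hx
    have h1 : f.c x i = 0 := by
      have := congrFun hx i
      rw [hflip.c_self] at this
      simpa using this
    apply hf.inj
    rw [map_zero]
    funext j
    by_cases hj : j = i
    · rw [hj, h1]; rfl
    · have := congrFun hx j
      rw [hflip.c_ne x j hj, h1] at this
      simpa using this
  · have e := hflip.lev_eq x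
    change _ = _ + _ * (f.lev (v' i) - 1) at e
    rw [v'i] at e
    have hθ : θ = 1 - f.lev w := by
      change (f.lev w : ℝ) + θ * -(f.c w i : ℝ) = 1 at htight
      rw [hw1] at htight
      push_cast at htight
      linarith
    have h1 : (f'.lev x : ℝ) = (levR f + θ • (-coR f i)) x := by
      rw [e, hθ]
      simp [levR, coR]; ring
    have h2 : (f'.lev x : ℝ) ≤ 1 := by rw [h1]; simpa using hfeas x hx
    have h3 : f'.lev x ≤ 1 := by exact_mod_cast h2
    by_contra hc
    have h4 : f'.lev x = 1 := by omega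
    obtain ⟨k, hk⟩ := hb x hx (by rw [← h1, h4]; simp)
    obtain ⟨j, hj⟩ := hr k
    exact hn j (by rw [← hk, hj])

include H in
theorem exists_good : ∃ f, Good V f := by
  classical
  obtain ⟨m, ⟨u, hu, rfl⟩, hm⟩ := Int.exists_greatest_of_bdd
    (P := fun z => ∃ u : (Fin d → ℤ) →+ ℝ, (∀ v ∈ V, u v ≤ 1) ∧
      ((V.filter fun v => u v = 1).card : ℤ) = z)
    ⟨V.card, by rintro z ⟨u, -, rfl⟩; exact_mod_cast Finset.card_filter_le _ _⟩
    ⟨_, 0, fun v _ => by simp, rfl⟩
  obtain ⟨b, hb⟩ := H.fac u hu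
  let f : Fac (Fin d → ℤ) (Fin d) := ⟨b, b.equivFun.toLinearMap.toAddMonoidHom⟩
  have fc : ∀ x j, f.c x j = b.repr x j := fun x j => rfl
  have hall : ∀ j, b j ∈ V ∧ u (b j) = 1 := by
    intro j
    by_contra hc
    obtain ⟨θ, w, hw, hpos, hfeas, htight⟩ := H.move u (coR f j) hu ⟨b j, by simp [coR, fc]⟩
    have hz : ∀ v ∈ V, u v = 1 → coR f j v = 0 := by
      intro v hv h1
      obtain ⟨k, rfl⟩ := hb v hv h1
      have : k ≠ j := fun e => hc (e ▸ ⟨hv, h1⟩)
      simp [coR, fc, this]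
    have h1 := hm _ ⟨u + θ • coR f j, fun v hv => by simpa using hfeas v hv, rfl⟩
    have h2 : (V.filter fun v => u v = 1) ⊂ V.filter fun v => (u + θ • coR f j) v = 1 := by
      rw [Finset.ssubset_iff_of_subset]
      · refine ⟨w, by simpa [hw] using htight, fun h => ?_⟩
        rw [Finset.mem_filter] at h
        rw [hz w h.1 h.2] at hpos
        exact lt_irrefl _ hpos
      · intro v hv
        rw [Finset.mem_filter] at hv ⊢
        exact ⟨hv.1, by simp [hv.2, hz v hv.1 hv.2]⟩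
    have h3 := Finset.card_lt_card h2
    omega
  refine ⟨f, fun j => (hall j).1, fun j => ?_, b.equivFun.injective, fun x hx hn => ?_⟩
  · funext k
    rw [fc]
    change b.repr (b j) k = _
    simp [Pi.single_apply, Finsupp.single_apply, eq_comm]
  · have e : (f.lev x : ℝ) = u x := by
      conv_rhs => rw [← b.sum_repr x]
      rw [map_sum]
      simp only [map_zsmul, (hall _).2]
      simp [Fac.lev, fc]
    have h2 : (f.lev x : ℝ) ≤ 1 := by rw [e]; exact hu x hx
    have h3 : f.lev x ≤ 1 := by exact_mod_cast h2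
    by_contra hc
    have h4 : f.lev x = 1 := by omega
    obtain ⟨k, hk⟩ := hb x hx (by rw [← e, h4]; simp)
    exact hn k hk.symm

/-- the facet system of a smooth Fano polytope -/
def cfg : Cfg (Fin d → ℤ) (Fin d) where
  V := V
  good := Good V
  mem := fun _ hf => hf.mem
  cv := fun _ hf => hf.cv
  lev_le := fun _ hf => hf.lev_le
  flip := fun _ hf => H.flip hf
  ker := fun f f' hf _ x hx => by rw [hf.inj (hx.trans (map_zero _).symm), map_zero]
  nz := fun f hf x hx h => H.zero (hf.inj (h.trans (map_zero _).symm) ▸ hx)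

end Fano

end Pool.Agent.P.MP_a05398_ag
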